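import Mathlib

set_option autoImplicit false

namespace Pool.Agent.Helper70.Flip

/-- `e_j[v]`: the number of edges of colour `j` (for the edge-colouring `f` of `G`) both of whose
endpoints lie in the closed neighbourhood `N[v]` of `v` in `G`. -/
noncomputable def closedCount {V : Type} {k : ℕ} (G : SimpleGraph V)
    (f : G.EdgeLabeling (Fin k)) (j : Fin k) (v : V) : ℕ :=
  {e : Sym2 V | e ∈ (f.labelGraph j).edgeSet ∧ ∀ x ∈ e, x = v ∨ G.Adj v x}.ncard

/-- `G` is an `(a_1, …, a_k)`-flip graph: some edge-colouring `f` of `G` with `k` colours has every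
vertex incident with exactly `a_j` edges of colour `j`, and `e_k[v] < … < e_1[v]` for all `v`. -/
def IsFlipGraph {V : Type} {k : ℕ} (a : Fin k → ℕ) (G : SimpleGraph V) : Prop :=
  ∃ f : G.EdgeLabeling (Fin k),
    (∀ (j : Fin k) (v : V), ((f.labelGraph j).neighborSet v).ncard = a j) ∧
      ∀ (v : V) (i j : Fin k), i < j → closedCount G f j v < closedCount G f i v

/-- `(a_1, …, a_k)` is a flip sequence: a strictly increasing sequence of positive integers for
which some finite (nonempty) graph is an `(a_1, …, a_k)`-flip graph. -/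
def IsFlipSequence {k : ℕ} (a : Fin k → ℕ) : Prop :=
  (∀ j, 0 < a j) ∧ StrictMono a ∧
    ∃ (V : Type) (_ : Finite V) (_ : Nonempty V) (G : SimpleGraph V), IsFlipGraph a G

end Pool.Agent.Helper70.Flip
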