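import Mathlib
import Pool.Agent.Helper70.FlipDefs

set_option autoImplicit false

namespace Pool.Agent.Helper70.Flip

open Finset

section Algebra

variable {V : Type} [Fintype V]

/-- the trilinear triangle form. -/
def tau (X Y Z : V → V → ℝ) : ℝ := ∑ v, ∑ x, ∑ y, X v x * Y v y * Z x y

theorem tau_swap12 (X Y Z : V → V → ℝ) (hZ : ∀ x y, Z x y = Z y x) :
    tau X Y Z = tau Y X Z := by
  unfold tau
  refine sum_congr rfl fun v _ => ?_
  rw [sum_comm]
  refine sum_congr rfl fun x _ => sum_congr rfl fun y _ => ?_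
  rw [hZ y x]; ring

theorem tau_swap13 (X Y Z : V → V → ℝ) (hX : ∀ x y, X x y = X y x) (hY : ∀ x y, Y x y = Y y x)
    (hZ : ∀ x y, Z x y = Z y x) : tau X Y Z = tau Z Y X := by
  -- rename v ↔ y
  unfold tau
  calc ∑ v, ∑ x, ∑ y, X v x * Y v y * Z x y = ∑ x, ∑ v, ∑ y, X v x * Y v y * Z x y := sum_comm
    _ = ∑ x, ∑ y, ∑ v, X v x * Y v y * Z x y := sum_congr rfl fun x _ => sum_comm
    _ = ∑ y, ∑ x, ∑ v, X v x * Y v y * Z x y := sum_comm
    _ = ∑ v, ∑ x, ∑ y, Z v x * Y v y * X x y := by
      refine sum_congr rfl fun y _ => sum_congr rfl fun x _ => sum_congr rfl fun v _ => ?_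
      rw [hX v x, hY v y, hZ x y]; ring

/-- the local inequality for a `0/1`-weight of total mass `a`. -/
theorem local_ineq (A F : V → V → ℝ) (a : ℝ) (w : V → ℝ)
    (hA01 : ∀ x y, A x y = 0 ∨ A x y = 1) (hF01 : ∀ x y, F x y = 0 ∨ F x y = 1)
    (hAF : ∀ x y, A x y * F x y = 0) (hFs : ∀ x y, F x y = F y x)
    (hA0 : ∀ x, A x x = 0) (hF0 : ∀ x, F x x = 0)
    (hw01 : ∀ x, w x = 0 ∨ w x = 1) (hw : ∑ x, w x = a) :
    a ^ 2 * (2 * (∑ x, ∑ y, w x * w y * A x y) + 3 * (∑ x, ∑ y, w x * w y * F x y)) -
      a * (∑ x, ∑ y, ∑ z, w x * w y * w z * F x y * F y z * F x z) ≤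
      5 / 2 * a ^ 4 - 2 * a ^ 3 := by
  classical
  have hw0 : ∀ x, 0 ≤ w x := fun x => by rcases hw01 x with h | h <;> simp [h]
  have hw2 : ∀ x, w x * w x = w x := fun x => by rcases hw01 x with h | h <;> simp [h]
  have hF0' : ∀ x y, 0 ≤ F x y := fun x y => by rcases hF01 x y with h | h <;> simp [h]
  have ha0 : 0 ≤ a := by rw [← hw]; exact sum_nonneg fun x _ => hw0 x
  obtain ⟨e, he⟩ : ∃ e, e = ∑ x, ∑ y, w x * w y * A x y := ⟨_, rfl⟩
  obtain ⟨E, hE⟩ : ∃ E, E = ∑ x, ∑ y, w x * w y * F x y := ⟨_, rfl⟩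
  obtain ⟨t, ht⟩ : ∃ t, t = ∑ x, ∑ y, ∑ z, w x * w y * w z * F x y * F y z * F x z := ⟨_, rfl⟩
  rw [← he, ← hE, ← ht]
  -- (i)
  have h1 : e + E ≤ a ^ 2 - a := by
    have : e + E = ∑ x, ∑ y, w x * w y * (A x y + F x y) := by
      rw [he, hE, ← sum_add_distrib]
      refine sum_congr rfl fun x _ => ?_
      rw [← sum_add_distrib]
      refine sum_congr rfl fun y _ => ?_
      ring
    rw [this]
    have h2 : a ^ 2 - a = ∑ x, ∑ y, w x * w y * (1 - if x = y then 1 else 0) := by
      have h3 : ∀ x, ∑ y, w x * w y * (1 - if x = y then (1 : ℝ) else 0) = w x * a - w x := by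
        intro x
        have : ∀ y, w x * w y * (1 - if x = y then (1 : ℝ) else 0) =
            w x * w y - if x = y then w x * w y else 0 := by
          intro y; split_ifs <;> ring
        simp only [this]
        rw [sum_sub_distrib, ← mul_sum, hw, sum_ite_eq]
        simp [hw2]
      simp only [h3]
      rw [sum_sub_distrib, ← sum_mul, hw]
      ring
    rw [h2]
    refine sum_le_sum fun x _ => sum_le_sum fun y _ => ?_
    apply mul_le_mul_of_nonneg_left _ (mul_nonneg (hw0 x) (hw0 y))
    by_cases hxy : x = y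
    · subst hxy; simp [hA0, hF0]
    · rw [if_neg hxy]
      have := hAF x y
      rcases hA01 x y with h | h <;> rcases hF01 x y with h' | h' <;> simp_all
  -- (ii)
  obtain ⟨d, hd⟩ : ∃ d : V → ℝ, ∀ y, d y = ∑ x, w x * F x y := ⟨_, fun _ => rfl⟩
  have hd' : ∀ y, ∑ z, w z * F y z = d y := by
    intro y
    rw [hd]
    exact sum_congr rfl fun x _ => by rw [hFs y x]
  have hEd : E = ∑ y, w y * d y := by
    rw [hE]
    refine sum_congr rfl fun x _ => ?_
    rw [← hd', mul_sum]
    exact sum_congr rfl fun y _ => by ring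
  have h2 : 2 * (∑ y, w y * d y ^ 2) - a * E ≤ t := by
    have ht' : t = ∑ y, ∑ z, w y * w z * F y z * (∑ x, w x * (F x y * F x z)) := by
      rw [ht, sum_comm]
      refine sum_congr rfl fun y _ => ?_
      rw [sum_comm]
      refine sum_congr rfl fun z _ => ?_
      rw [mul_sum]
      exact sum_congr rfl fun x _ => by ring
    have hlow : ∑ y, ∑ z, w y * w z * F y z * (d y + d z - a) ≤ t := by
      rw [ht']
      refine sum_le_sum fun y _ => sum_le_sum fun z _ => ?_
      apply mul_le_mul_of_nonneg_left _ (mul_nonneg (mul_nonneg (hw0 y) (hw0 z)) (hF0' y z))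
      rw [hd, hd, ← hw, ← sum_add_distrib, ← sum_sub_distrib]
      refine sum_le_sum fun x _ => ?_
      have : w x * F x y + w x * F x z - w x = w x * (F x y + F x z - 1) := by ring
      rw [this]
      apply mul_le_mul_of_nonneg_left _ (hw0 x)
      rcases hF01 x y with h | h <;> rcases hF01 x z with h' | h' <;> simp [h, h']
    refine le_trans (le_of_eq ?_) hlow
    have e1 : ∑ y, ∑ z, w y * w z * F y z * d y = ∑ y, w y * d y ^ 2 := by
      refine sum_congr rfl fun y _ => ?_
      have : ∀ z, w y * w z * F y z * d y = (w y * d y) * (w z * F y z) := fun z => by ring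
      simp only [this]
      rw [← mul_sum, hd']
      ring
    have e2 : ∑ y, ∑ z, w y * w z * F y z * d z = ∑ y, w y * d y ^ 2 := by
      rw [sum_comm]
      refine sum_congr rfl fun y _ => ?_
      have : ∀ z, w z * w y * F z y * d y = (w y * d y) * (w z * F z y) := fun z => by ring
      simp only [this]
      rw [← mul_sum, ← hd]
      ring
    have e3 : ∑ y, ∑ z, w y * w z * F y z * a = a * E := by
      rw [hE, mul_sum]
      refine sum_congr rfl fun y _ => ?_
      rw [mul_sum]
      exact sum_congr rfl fun z _ => by ring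
    have : ∀ y z, w y * w z * F y z * (d y + d z - a) =
        w y * w z * F y z * d y + w y * w z * F y z * d z - w y * w z * F y z * a := by
      intro y z; ring
    simp only [this, sum_sub_distrib, sum_add_distrib]
    rw [e1, e2, e3]
    ring
  -- Cauchy–Schwarz
  have h3 : E ^ 2 ≤ a * ∑ y, w y * d y ^ 2 := by
    have hcs := sum_mul_sq_le_sq_mul_sq univ w (fun y => w y * d y)
    have e1 : ∑ y, w y * (w y * d y) = E := by
      rw [hEd]
      exact sum_congr rfl fun y _ => by rw [← mul_assoc, hw2]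
    have e2 : ∑ y, w y ^ 2 = a := by
      rw [← hw]
      exact sum_congr rfl fun y _ => by rw [sq, hw2]
    have e3 : ∑ y, (w y * d y) ^ 2 = ∑ y, w y * d y ^ 2 :=
      sum_congr rfl fun y _ => by rw [mul_pow, sq (w y), hw2]
    rw [e1, e2, e3] at hcs
    exact hcs
  have h4 : 2 * E ^ 2 - a ^ 2 * E ≤ a * t := by
    have := mul_le_mul_of_nonneg_left h2 ha0
    nlinarith
  have h5 : a ^ 2 * (e + E) ≤ a ^ 2 * (a ^ 2 - a) :=
    mul_le_mul_of_nonneg_left h1 (sq_nonneg a)
  nlinarith [sq_nonneg (a ^ 2 - 2 * E)]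

theorem expand_nbhd [DecidableEq V] (X B : V → V → ℝ) (hXB : ∀ x y, X x y * B x y = X x y)
    (hXs : ∀ x y, X x y = X y x) (hX0 : ∀ x, X x x = 0) (v : V) :
    ∑ x, ∑ y, X x y * ((if x = v then 1 else 0) + B v x) * ((if y = v then 1 else 0) + B v y) =
      2 * (∑ y, X v y) + ∑ x, ∑ y, X x y * B v x * B v y := by
  have h : ∀ x y, X x y * ((if x = v then (1 : ℝ) else 0) + B v x) *
      ((if y = v then 1 else 0) + B v y) =
      (if x = v then X v y * (if y = v then 1 else 0) else 0) + (if x = v then X v y else 0) +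
        (if y = v then X x v * B v x else 0) + X x y * B v x * B v y := by
    intro x y
    by_cases hx : x = v
    · subst hx
      by_cases hy : y = x
      · subst hy; simp [hX0]
      · simp only [if_true, if_neg hy]
        have := hXB x y
        linear_combination this
    · by_cases hy : y = v
      · subst hy
        simp only [if_neg hx, if_true]
        ring
      · simp only [if_neg hx, if_neg hy]
        ring
  simp only [h, sum_add_distrib]
  have e1 : ∑ x, ∑ y, (if x = v then X v y * (if y = v then (1 : ℝ) else 0) else 0) = 0 := by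
    apply sum_eq_zero
    intro x _
    apply sum_eq_zero
    intro y _
    by_cases hx : x = v
    · by_cases hy : y = v
      · subst hy; simp [hX0]
      · simp [hy]
    · simp [hx]
  have e2 : ∑ x, ∑ y, (if x = v then X v y else 0) = ∑ y, X v y := by
    rw [sum_comm]
    refine sum_congr rfl fun y _ => ?_
    rw [sum_ite_eq']
    simp
  have e3 : ∑ x, ∑ y, (if y = v then X x v * B v x else 0) = ∑ y, X v y := by
    refine sum_congr rfl fun x _ => ?_
    rw [sum_ite_eq']
    simp only [mem_univ, if_true]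
    rw [hXs x v]
    exact hXB v x
  rw [e1, e2, e3]
  ring

/-- the global inequality. -/
theorem global_ineq [Nonempty V] [DecidableEq V] (A F : V → V → ℝ) (a b : ℝ)
    (hA01 : ∀ x y, A x y = 0 ∨ A x y = 1) (hF01 : ∀ x y, F x y = 0 ∨ F x y = 1)
    (hAF : ∀ x y, A x y * F x y = 0)
    (hAs : ∀ x y, A x y = A y x) (hFs : ∀ x y, F x y = F y x)
    (hA0 : ∀ x, A x x = 0) (hF0 : ∀ x, F x x = 0)
    (ha : ∀ x, ∑ y, A x y = a) (hb : ∀ x, ∑ y, F x y = b) (apos : 0 < a)
    (hv : ∀ v, ∑ x, ∑ y, F x y * ((if x = v then 1 else 0) + (A v x + F v x)) *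
        ((if y = v then 1 else 0) + (A v y + F v y)) <
      2 * ∑ x, ∑ y, A x y * ((if x = v then 1 else 0) + (A v x + F v x)) *
        ((if y = v then 1 else 0) + (A v y + F v y))) :
    b < 5 / 4 * a ^ 2 + a := by
  have hAA : ∀ x y, A x y * (A x y + F x y) = A x y := by
    intro x y
    have := hAF x y
    rcases hA01 x y with h | h <;> rcases hF01 x y with h' | h' <;> simp_all
  have hFF : ∀ x y, F x y * (A x y + F x y) = F x y := by
    intro x y
    have := hAF x y
    rcases hA01 x y with h | h <;> rcases hF01 x y with h' | h' <;> simp_all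
  have hA0' : ∀ x y, 0 ≤ A x y := fun x y => by rcases hA01 x y with h | h <;> simp [h]
  have hA1' : ∀ x y, A x y ≤ 1 := fun x y => by rcases hA01 x y with h | h <;> simp [h]
  have hF0' : ∀ x y, 0 ≤ F x y := fun x y => by rcases hF01 x y with h | h <;> simp [h]
  have hsum := sum_lt_sum_of_nonempty (univ_nonempty (α := V)) (fun v _ => hv v)
  rw [← mul_sum] at hsum
  have hTF : ∑ v, ∑ x, ∑ y, F x y * ((if x = v then 1 else 0) + (A v x + F v x)) *
        ((if y = v then 1 else 0) + (A v y + F v y)) =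
      2 * (Fintype.card V * b) + (tau A A F + tau A F F + tau F A F + tau F F F) := by
    have := fun v => expand_nbhd F (fun x y => A x y + F x y) hFF hFs hF0 v
    simp only [this, hb, sum_add_distrib, sum_const, card_univ, nsmul_eq_mul]
    congr 1
    · ring
    · unfold tau
      simp only [← sum_add_distrib]
      refine sum_congr rfl fun v _ => sum_congr rfl fun x _ => sum_congr rfl fun y _ => ?_
      ring
  have hTA : ∑ v, ∑ x, ∑ y, A x y * ((if x = v then 1 else 0) + (A v x + F v x)) *
        ((if y = v then 1 else 0) + (A v y + F v y)) =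
      2 * (Fintype.card V * a) + (tau A A A + tau A F A + tau F A A + tau F F A) := by
    have := fun v => expand_nbhd A (fun x y => A x y + F x y) hAA hAs hA0 v
    simp only [this, ha, sum_add_distrib, sum_const, card_univ, nsmul_eq_mul]
    congr 1
    · ring
    · unfold tau
      simp only [← sum_add_distrib]
      refine sum_congr rfl fun v _ => sum_congr rfl fun x _ => sum_congr rfl fun y _ => ?_
      ring
  rw [hTF, hTA] at hsum
  -- symmetries of the form
  have s1 : tau F A A = tau A F A := tau_swap12 F A A hAs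
  have s2 : tau F A A = tau A A F := tau_swap13 F A A hFs hAs hAs
  have s3 : tau F A F = tau A F F := tau_swap12 F A F hFs
  have s4 : tau A F F = tau F F A := tau_swap13 A F F hAs hFs hFs
  -- local inequalities
  have hloc : ∀ u, a ^ 2 * (2 * (∑ x, ∑ y, A u x * A u y * A x y) +
      3 * (∑ x, ∑ y, A u x * A u y * F x y)) -
      a * (∑ x, ∑ y, ∑ z, A u x * A u y * A u z * F x y * F y z * F x z) ≤
      5 / 2 * a ^ 4 - 2 * a ^ 3 := fun u =>
    local_ineq A F a (A u) hA01 hF01 hAF hFs hA0 hF0 (hA01 u) (ha u)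
  have hlocsum := sum_le_sum (s := univ) (fun u _ => hloc u)
  rw [sum_sub_distrib, ← mul_sum, ← mul_sum, sum_add_distrib, ← mul_sum, ← mul_sum, sum_const,
    card_univ, nsmul_eq_mul] at hlocsum
  have t1 : ∑ u, ∑ x, ∑ y, A u x * A u y * A x y = tau A A A := rfl
  have t2 : ∑ u, ∑ x, ∑ y, A u x * A u y * F x y = tau A A F := rfl
  rw [t1, t2] at hlocsum
  have t3 : ∑ u, ∑ x, ∑ y, ∑ z, A u x * A u y * A u z * F x y * F y z * F x z ≤
      a * tau F F F := by
    have r1 : ∑ u, ∑ x, ∑ y, ∑ z, A u x * A u y * A u z * F x y * F y z * F x z =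
        ∑ x, ∑ y, ∑ z, (F x y * F y z * F x z) * ∑ u, A u x * A u y * A u z := by
      rw [sum_comm]
      refine sum_congr rfl fun x _ => ?_
      rw [sum_comm]
      refine sum_congr rfl fun y _ => ?_
      rw [sum_comm]
      refine sum_congr rfl fun z _ => ?_
      rw [mul_sum]
      refine sum_congr rfl fun u _ => ?_
      ring
    have r2 : a * tau F F F = ∑ x, ∑ y, ∑ z, (F x y * F y z * F x z) * a := by
      unfold tau
      rw [mul_sum]
      refine sum_congr rfl fun x _ => ?_
      rw [mul_sum]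
      refine sum_congr rfl fun y _ => ?_
      rw [mul_sum]
      refine sum_congr rfl fun z _ => ?_
      ring
    rw [r1, r2]
    refine sum_le_sum fun x _ => sum_le_sum fun y _ => sum_le_sum fun z _ => ?_
    apply mul_le_mul_of_nonneg_left _ (mul_nonneg (mul_nonneg (hF0' _ _) (hF0' _ _)) (hF0' _ _))
    calc ∑ u, A u x * A u y * A u z ≤ ∑ u, A x u := by
          refine sum_le_sum fun u _ => ?_
          rw [hAs u x]
          rcases hA01 x u with h | h
          · simp [h]
          · rw [h, one_mul]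
            exact mul_le_one₀ (hA1' _ _) (hA0' _ _) (hA1' _ _)
      _ = a := ha x
  have t4 := mul_le_mul_of_nonneg_left t3 apos.le
  have hn : (0 : ℝ) < Fintype.card V := by exact_mod_cast Fintype.card_pos
  have key : a ^ 2 * (2 * tau A A A + 3 * tau A A F - tau F F F) ≤
      a ^ 2 * ((Fintype.card V : ℝ) * (5 / 2 * a ^ 2 - 2 * a)) := by nlinarith
  have key2 := le_of_mul_le_mul_left key (by positivity)
  have key3 : 2 * ((Fintype.card V : ℝ) * b) <
      (Fintype.card V : ℝ) * (4 * a + (5 / 2 * a ^ 2 - 2 * a)) := by nlinarith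
  have key4 : (Fintype.card V : ℝ) * (2 * b) <
      (Fintype.card V : ℝ) * (4 * a + (5 / 2 * a ^ 2 - 2 * a)) := by linarith
  have key5 := lt_of_mul_lt_mul_left key4 hn.le
  linarith

end Algebra

end Pool.Agent.Helper70.Flip
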