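import Mathlib
import Pool.Agent.Helper70.FlipUpper

set_option autoImplicit false

namespace Pool.Agent.Helper70.Flip

open Finset

open scoped Classical in
/-- Twice the number of edges inside a set, as a sum over ordered pairs. -/
theorem two_mul_ncard_edges {V : Type} [Fintype V] (H : SimpleGraph V) (P : V → Prop) :
    2 * {e : Sym2 V | e ∈ H.edgeSet ∧ ∀ x ∈ e, P x}.ncard =
      ∑ x, ∑ y, if H.Adj x y ∧ P x ∧ P y then 1 else 0 := by
  let H' : SimpleGraph V :=
    { Adj := fun x y => H.Adj x y ∧ P x ∧ P y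
      symm := ⟨fun x y h => ⟨h.1.symm, h.2.2, h.2.1⟩⟩
      loopless := ⟨fun x h => H.loopless.irrefl x h.1⟩ }
  have h1 : {e : Sym2 V | e ∈ H.edgeSet ∧ ∀ x ∈ e, P x} = H'.edgeSet := by
    ext e
    induction e using Sym2.inductionOn with
    | hf x y =>
      simp only [Set.mem_ofPred_eq, SimpleGraph.mem_edgeSet, Sym2.mem_iff, forall_eq_or_imp,
        forall_eq]
      rfl
  rw [h1, Set.ncard_eq_toFinset_card', Set.toFinset_card]
  have h2 := H'.sum_degrees_eq_twice_card_edges
  rw [SimpleGraph.edgeFinset_card] at h2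
  rw [← h2]
  refine sum_congr rfl fun x _ => ?_
  rw [← SimpleGraph.card_neighborFinset_eq_degree, card_eq_sum_ones, ← sum_filter]
  apply sum_congr _ (fun _ _ => rfl)
  ext y
  simp [H']

theorem flip_upper {V : Type} [Finite V] [Nonempty V] (G : SimpleGraph V) (a : Fin 3 → ℕ)
    (h0 : 0 < a 0) (hG : IsFlipGraph a G) :
    ((a 1 : ℝ) + a 2) < 5 / 4 * (a 0 : ℝ) ^ 2 + a 0 := by
  classical
  have := Fintype.ofFinite V
  obtain ⟨f, hdeg, hlt⟩ := hG
  have hdisj : ∀ i j : Fin 3, i ≠ j → ∀ x y, (f.labelGraph i).Adj x y →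
      ¬ (f.labelGraph j).Adj x y := by
    intro i j hij x y h1 h2
    rw [SimpleGraph.EdgeLabeling.labelGraph_adj] at h1 h2
    obtain ⟨_, e1⟩ := h1
    obtain ⟨_, e2⟩ := h2
    exact hij (e1.symm.trans e2)
  have hadj : ∀ x y, G.Adj x y ↔ (f.labelGraph 0).Adj x y ∨ (f.labelGraph 1).Adj x y ∨
      (f.labelGraph 2).Adj x y := by
    intro x y
    simp only [SimpleGraph.EdgeLabeling.labelGraph_adj]
    constructor
    · intro h
      obtain ⟨j, hj⟩ : ∃ j, f ⟨s(x, y), h⟩ = j := ⟨_, rfl⟩
      fin_cases j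
      · exact Or.inl ⟨h, hj⟩
      · exact Or.inr (Or.inl ⟨h, hj⟩)
      · exact Or.inr (Or.inr ⟨h, hj⟩)
    · rintro (⟨h, _⟩ | ⟨h, _⟩ | ⟨h, _⟩) <;> exact h
  obtain ⟨A, hA⟩ : ∃ A : V → V → ℝ, ∀ x y, A x y = if (f.labelGraph 0).Adj x y then 1 else 0 :=
    ⟨_, fun _ _ => rfl⟩
  obtain ⟨F, hF⟩ : ∃ F : V → V → ℝ, ∀ x y, F x y =
      (if (f.labelGraph 1).Adj x y then 1 else 0) + (if (f.labelGraph 2).Adj x y then 1 else 0) :=
    ⟨_, fun _ _ => rfl⟩
  have hsum : ∀ (j : Fin 3) (v : V),
      ∑ y, (if (f.labelGraph j).Adj v y then (1 : ℝ) else 0) = a j := by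
    intro j v
    rw [← hdeg j v, Set.ncard_eq_toFinset_card', Set.toFinset_card]
    rw [sum_boole]
    congr 1
    rw [← Set.toFinset_card]
    congr 1
    ext y
    simp
  have hn : ∀ v x, (if x = v then (1 : ℝ) else 0) + (A v x + F v x) =
      if x = v ∨ G.Adj v x then 1 else 0 := by
    intro v x
    rw [hA, hF]
    by_cases hx : x = v
    · subst hx; simp
    · rw [if_neg hx]
      by_cases c0 : (f.labelGraph 0).Adj v x
      · have c1 := hdisj 0 1 (by decide) v x c0
        have c2 := hdisj 0 2 (by decide) v x c0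
        have : G.Adj v x := (hadj v x).mpr (Or.inl c0)
        simp [c0, c1, c2, this]
      · by_cases c1 : (f.labelGraph 1).Adj v x
        · have c2 := hdisj 1 2 (by decide) v x c1
          have : G.Adj v x := (hadj v x).mpr (Or.inr (Or.inl c1))
          simp [c0, c1, c2, this]
        · by_cases c2 : (f.labelGraph 2).Adj v x
          · have : G.Adj v x := (hadj v x).mpr (Or.inr (Or.inr c2))
            simp [c0, c1, c2, this]
          · have : ¬ G.Adj v x := by rw [hadj]; tauto
            simp [c0, c1, c2, this, hx]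
  have hcount : ∀ (j : Fin 3) (v : V), ∑ x, ∑ y, (if (f.labelGraph j).Adj x y then (1 : ℝ) else 0) *
      ((if x = v then 1 else 0) + (A v x + F v x)) * ((if y = v then 1 else 0) + (A v y + F v y)) =
      2 * (closedCount G f j v : ℝ) := by
    intro j v
    have h := two_mul_ncard_edges (f.labelGraph j) (fun x => x = v ∨ G.Adj v x)
    have h' : (2 : ℝ) * (closedCount G f j v : ℝ) =
        ((2 * {e : Sym2 V | e ∈ (f.labelGraph j).edgeSet ∧
          ∀ x ∈ e, x = v ∨ G.Adj v x}.ncard : ℕ) : ℝ) := by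
      push_cast
      rfl
    rw [h', h]
    push_cast
    refine sum_congr rfl fun x _ => sum_congr rfl fun y _ => ?_
    rw [hn, hn]
    by_cases c1 : (f.labelGraph j).Adj x y <;> by_cases c2 : x = v ∨ G.Adj v x <;>
      by_cases c3 : y = v ∨ G.Adj v y <;> simp [c1, c2, c3]
  have key := global_ineq A F (a 0 : ℝ) ((a 1 : ℝ) + a 2) ?_ ?_ ?_ ?_ ?_ ?_ ?_ ?_ ?_ ?_ ?_
  · exact key
  · intro x y; rw [hA]; split_ifs <;> simp
  · intro x y
    rw [hF]
    by_cases c1 : (f.labelGraph 1).Adj x y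
    · have c2 := hdisj 1 2 (by decide) x y c1
      simp [c1, c2]
    · by_cases c2 : (f.labelGraph 2).Adj x y <;> simp [c1, c2]
  · intro x y
    rw [hA, hF]
    by_cases c0 : (f.labelGraph 0).Adj x y
    · have c1 := hdisj 0 1 (by decide) x y c0
      have c2 := hdisj 0 2 (by decide) x y c0
      simp [c1, c2]
    · simp [c0]
  · intro x y; rw [hA, hA]; simp only [(f.labelGraph 0).adj_comm x y]
  · intro x y; rw [hF, hF]; simp only [(f.labelGraph 1).adj_comm x y, (f.labelGraph 2).adj_comm x y]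
  · intro x; rw [hA]; simp
  · intro x; rw [hF]; simp
  · intro x; simp only [hA]; exact hsum 0 x
  · intro x; simp only [hF]; rw [sum_add_distrib, hsum, hsum]
  · exact_mod_cast h0
  · intro v
    have e0 : ∑ x, ∑ y, A x y * ((if x = v then 1 else 0) + (A v x + F v x)) *
        ((if y = v then 1 else 0) + (A v y + F v y)) = 2 * (closedCount G f 0 v : ℝ) := by
      rw [← hcount 0 v]
      refine sum_congr rfl fun x _ => sum_congr rfl fun y _ => ?_
      rw [hA x y]
    have e1 : ∑ x, ∑ y, F x y * ((if x = v then 1 else 0) + (A v x + F v x)) *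
        ((if y = v then 1 else 0) + (A v y + F v y)) =
        2 * (closedCount G f 1 v : ℝ) + 2 * (closedCount G f 2 v : ℝ) := by
      rw [← hcount 1 v, ← hcount 2 v, ← sum_add_distrib]
      refine sum_congr rfl fun x _ => ?_
      rw [← sum_add_distrib]
      refine sum_congr rfl fun y _ => ?_
      rw [hF x y]
      ring
    rw [e0, e1]
    have l1 : (closedCount G f 1 v : ℝ) < closedCount G f 0 v := by
      exact_mod_cast hlt v 0 1 (by decide)
    have l2 : (closedCount G f 2 v : ℝ) < closedCount G f 0 v := by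
      exact_mod_cast hlt v 0 2 (by decide)
    linarith

/-- every 3-flip sequence satisfies `a_3 < (5/4) a_1 ^ 2`. -/
theorem flipSequence_upper (a : Fin 3 → ℕ) (h : IsFlipSequence a) :
    (a 2 : ℝ) < 5 / 4 * (a 0 : ℝ) ^ 2 := by
  obtain ⟨hpos, hmono, V, hV, hne, G, hG⟩ := h
  have h1 := flip_upper G a (hpos 0) hG
  have h2 : a 0 < a 1 := hmono (by decide)
  have h3 : (a 0 : ℝ) < a 1 := by exact_mod_cast h2
  linarith

end Pool.Agent.Helper70.Flip
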