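import Mathlib
import Pool.Agent.Helper70.FlipUpper2

set_option autoImplicit false

namespace Pool.Agent.Helper70.Flip

open Finset

section Cayley

variable {Γ : Type} [Group Γ] [Fintype Γ] [DecidableEq Γ]

/-- the Cayley graph of the union of the connection sets `S j`. -/
def cay {k : ℕ} (S : Fin k → Finset Γ) (hinv : ∀ j, ∀ g ∈ S j, g⁻¹ ∈ S j)
    (h1 : ∀ j, (1 : Γ) ∉ S j) : SimpleGraph Γ where
  Adj x y := ∃ j, x⁻¹ * y ∈ S j
  symm := ⟨by
    rintro x y ⟨j, hj⟩
    refine ⟨j, ?_⟩
    have := hinv j _ hj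
    rwa [mul_inv_rev, inv_inv] at this⟩
  loopless := ⟨by
    rintro x ⟨j, hj⟩
    rw [inv_mul_cancel] at hj
    exact h1 j hj⟩

theorem isFlipGraph_cay {k : ℕ} (S : Fin k → Finset Γ) (hinv : ∀ j, ∀ g ∈ S j, g⁻¹ ∈ S j)
    (h1 : ∀ j, (1 : Γ) ∉ S j) (hdisj : ∀ i j, i ≠ j → Disjoint (S i) (S j))
    (D : Finset Γ) (hD : ∀ g, g ∈ D ↔ g = 1 ∨ ∃ j, g ∈ S j)
    (hC : ∀ i j, i < j → ∑ s ∈ S j, #{g ∈ D | g * s ∈ D} < ∑ s ∈ S i, #{g ∈ D | g * s ∈ D}) :
    IsFlipGraph (fun j => #(S j)) (cay S hinv h1) := by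
  classical
  have huniq : ∀ i j, ∀ g, g ∈ S i → g ∈ S j → i = j := by
    intro i j g hi hj
    by_contra hij
    exact Finset.disjoint_left.mp (hdisj i j hij) hi hj
  let f : (cay S hinv h1).EdgeLabeling (Fin k) :=
    SimpleGraph.EdgeLabeling.mk (fun x y h => Classical.choose h) (by
      intro x y H
      have e1 := Classical.choose_spec H
      have e2 := Classical.choose_spec H.symm
      have e3 := hinv _ _ e2
      rw [mul_inv_rev, inv_inv] at e3
      exact (huniq _ _ _ e3 e1))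
  have hadj : ∀ j x y, (f.labelGraph j).Adj x y ↔ x⁻¹ * y ∈ S j := by
    intro j x y
    rw [SimpleGraph.EdgeLabeling.labelGraph_adj]
    constructor
    · rintro ⟨H, hH⟩
      have e1 := Classical.choose_spec H
      have e2 : f ⟨s(x, y), H⟩ = Classical.choose H := rfl
      rw [hH] at e2
      rwa [← e2] at e1
    · intro h
      refine ⟨⟨j, h⟩, ?_⟩
      have H : (cay S hinv h1).Adj x y := ⟨j, h⟩
      have e1 := Classical.choose_spec H
      have e2 : f ⟨s(x, y), H⟩ = Classical.choose H := rfl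
      rw [e2]
      exact huniq _ _ _ e1 h
  have hcount : ∀ j v, 2 * closedCount (cay S hinv h1) f j v =
      ∑ s ∈ S j, #{g ∈ D | g * s ∈ D} := by
    intro j v
    have h := two_mul_ncard_edges (f.labelGraph j)
      (fun x => x = v ∨ (cay S hinv h1).Adj v x)
    have hN : ∀ x, (x = v ∨ (cay S hinv h1).Adj v x) ↔ v⁻¹ * x ∈ D := by
      intro x
      rw [hD]
      have : (v⁻¹ * x = 1) ↔ x = v := by
        rw [inv_mul_eq_one]; exact eq_comm
      rw [this]
      rfl
    have h' : 2 * closedCount (cay S hinv h1) f j v =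
        ∑ x, ∑ y, if (f.labelGraph j).Adj x y ∧ (x = v ∨ (cay S hinv h1).Adj v x) ∧
          (y = v ∨ (cay S hinv h1).Adj v y) then 1 else 0 := by
      refine Eq.trans h ?_
      refine sum_congr rfl fun x _ => sum_congr rfl fun y _ => ?_
      congr
    rw [h']
    simp only [hN, hadj]
    -- reindex `x = v * g`
    rw [← Equiv.sum_comp (Equiv.mulLeft v)]
    have e1 : ∀ g, ∑ y, (if (Equiv.mulLeft v g)⁻¹ * y ∈ S j ∧ v⁻¹ * (Equiv.mulLeft v g) ∈ D ∧
        v⁻¹ * y ∈ D then 1 else 0) = ∑ s, if s ∈ S j ∧ g ∈ D ∧ g * s ∈ D then 1 else 0 := by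
      intro g
      rw [← Equiv.sum_comp (Equiv.mulLeft (v * g))]
      refine sum_congr rfl fun s _ => ?_
      simp only [Equiv.coe_mulLeft, mul_assoc, inv_mul_cancel_left, mul_inv_rev]
    simp only [e1]
    rw [sum_comm]
    rw [← sum_filter_add_sum_filter_not univ (fun s => s ∈ S j)]
    have e2 : ∑ s with s ∉ S j, ∑ g, (if s ∈ S j ∧ g ∈ D ∧ g * s ∈ D then 1 else 0) = 0 := by
      apply sum_eq_zero
      intro s hs
      rw [mem_filter] at hs
      apply sum_eq_zero
      intro g _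
      rw [if_neg]
      exact fun h => hs.2 h.1
    rw [e2, add_zero]
    have e3 : (univ.filter (fun s => s ∈ S j)) = S j := by ext; simp
    rw [e3]
    refine sum_congr rfl fun s hs => ?_
    rw [← sum_filter, ← card_eq_sum_ones]
    congr 1
    ext g
    simp [hs]
  refine ⟨f, ?_, ?_⟩
  · intro j v
    have : (f.labelGraph j).neighborSet v = ((S j).map (Equiv.mulLeft v).toEmbedding : Finset Γ) := by
      ext y
      rw [SimpleGraph.mem_neighborSet, hadj]
      simp only [coe_map, Equiv.coe_toEmbedding, Equiv.coe_mulLeft, Set.mem_image, mem_coe]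
      constructor
      · intro h
        exact ⟨_, h, by simp⟩
      · rintro ⟨s, hs, rfl⟩
        simpa using hs
    rw [this, Set.ncard_coe_finset, card_map]
  · intro v i j hij
    have := hC i j hij
    rw [← hcount j v, ← hcount i v] at this
    omega

end Cayley

end Pool.Agent.Helper70.Flip
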