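import Mathlib
import Pool.Agent.Helper70.FlipCayley

set_option autoImplicit false

namespace Pool.Agent.Helper70.Flip

open Finset

variable {A B U K W I1 I2 I3 : Type} [Group A] [Group B] [Group U] [Group K] [Group W]

/-- the hypotheses on the two subgroups `α(A)`, `β(B)` of `U` and the involutions `t`. -/
structure Hyp (α : A →* U) (β : B →* U) (t1 : I1 → W) (t2 : I2 → W) (t3 : I3 → W) : Prop where
  p2 : ∀ a b, α a = β b → a = 1 ∧ b = 1
  p4 : ∀ a b a' b', α a * β b * α a' * β b' = 1 → a = 1 ∨ b = 1 ∨ a' = 1 ∨ b' = 1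
  p6 : ∀ a b a' b' a'' b'', α a * β b * α a' * β b' * α a'' * β b'' = 1 →
    a = 1 ∨ b = 1 ∨ a' = 1 ∨ b' = 1 ∨ a'' = 1 ∨ b'' = 1
  inj1 : Function.Injective t1
  inj2 : Function.Injective t2
  inj3 : Function.Injective t3
  d12 : ∀ i j, t1 i ≠ t2 j
  d13 : ∀ i j, t1 i ≠ t3 j
  d23 : ∀ i j, t2 i ≠ t3 j
  ne1 : ∀ i, t1 i ≠ 1
  ne2 : ∀ i, t2 i ≠ 1
  ne3 : ∀ i, t3 i ≠ 1
  sq1 : ∀ i, t1 i * t1 i = 1
  sq2 : ∀ i, t2 i * t2 i = 1
  sq3 : ∀ i, t3 i * t3 i = 1
  sf : ∀ x y z, x ∈ Set.range t1 ∪ Set.range t2 ∪ Set.range t3 →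
    y ∈ Set.range t1 ∪ Set.range t2 ∪ Set.range t3 →
    z ∈ Set.range t1 ∪ Set.range t2 ∪ Set.range t3 → x * y ≠ z

theorem Hyp.swap {α : A →* U} {β : B →* U} {t1 : I1 → W} {t2 : I2 → W} {t3 : I3 → W}
    (h : Hyp α β t1 t2 t3) : Hyp β α t2 t1 t3 where
  p2 := fun b a e => (h.p2 a b e.symm).symm
  p4 := by
    intro b a b' a' e
    have e' : α a * β b' * α a' * β b = 1 := by
      have : β b * (α a * β b' * α a') = 1 := by simpa only [mul_assoc] using e
      have := mul_eq_one_comm.mp this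
      simpa only [mul_assoc] using this
    rcases h.p4 _ _ _ _ e' with h | h | h | h <;> tauto
  p6 := by
    intro b a b' a' b'' a'' e
    have e' : α a * β b' * α a' * β b'' * α a'' * β b = 1 := by
      have : β b * (α a * β b' * α a' * β b'' * α a'') = 1 := by simpa only [mul_assoc] using e
      have := mul_eq_one_comm.mp this
      simpa only [mul_assoc] using this
    rcases h.p6 _ _ _ _ _ _ e' with h | h | h | h | h | h <;> tauto
  inj1 := h.inj2
  inj2 := h.inj1
  inj3 := h.inj3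
  d12 := fun i j e => h.d12 j i e.symm
  d13 := h.d23
  d23 := h.d13
  ne1 := h.ne2
  ne2 := h.ne1
  ne3 := h.ne3
  sq1 := h.sq2
  sq2 := h.sq1
  sq3 := h.sq3
  sf := by
    intro x y z hx hy hz
    rw [Set.union_comm (Set.range t2)] at hx hy hz
    exact h.sf x y z hx hy hz

/-- membership in the closed neighbourhood of the identity. -/
def InD (α : A →* U) (β : B →* U) (t1 : I1 → W) (t2 : I2 → W) (t3 : I3 → W)
    (g : U × K × W) : Prop :=
  (g.2.2 = 1 ∧ ∃ a b, g.1 = α a * β b ∨ g.1 = β b * α a) ∨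
    (∃ i, g.2.2 = t1 i ∧ ∃ a, a ≠ 1 ∧ g.1 = α a) ∨
    (∃ i, g.2.2 = t2 i ∧ ∃ b, b ≠ 1 ∧ g.1 = β b) ∨
    (∃ i, g.2.2 = t3 i ∧ g.1 = 1 ∧ g.2.1 = 1)

theorem inD_swap (α : A →* U) (β : B →* U) (t1 : I1 → W) (t2 : I2 → W) (t3 : I3 → W)
    (g : U × K × W) : InD α β t1 t2 t3 g ↔ InD β α t2 t1 t3 g := by
  unfold InD
  constructor
  · rintro (⟨h, a, b, hab⟩ | h | h | h)
    · exact Or.inl ⟨h, b, a, hab.symm⟩
    · exact Or.inr (Or.inr (Or.inl h))
    · exact Or.inr (Or.inl h)
    · exact Or.inr (Or.inr (Or.inr h))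
  · rintro (⟨h, a, b, hab⟩ | h | h | h)
    · exact Or.inl ⟨h, b, a, hab.symm⟩
    · exact Or.inr (Or.inr (Or.inl h))
    · exact Or.inr (Or.inl h)
    · exact Or.inr (Or.inr (Or.inr h))

section Words

variable {α : A →* U} {β : B →* U} {t1 : I1 → W} {t2 : I2 → W} {t3 : I3 → W}
  (h : Hyp α β t1 t2 t3)

include h

theorem Hyp.a_inj : Function.Injective α := by
  intro a a' e
  have : α (a * a'⁻¹) = β 1 := by simp [e]
  exact mul_inv_eq_one.mp (h.p2 _ _ this).1

theorem Hyp.b_inj : Function.Injective β := h.swap.a_inj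

/-- uniqueness of the product decomposition. -/
theorem Hyp.ab_inj {a a' : A} {b b' : B} (e : α a * β b = α a' * β b') : a = a' ∧ b = b' := by
  have : α (a'⁻¹ * a) = β (b' * b⁻¹) := by
    rw [map_mul, map_mul, map_inv, map_inv, inv_mul_eq_iff_eq_mul, ← mul_assoc,
      eq_mul_inv_iff_mul_eq]
    exact e
  obtain ⟨h1, h2⟩ := h.p2 _ _ this
  exact ⟨(inv_mul_eq_one.mp h1).symm, (mul_inv_eq_one.mp h2).symm⟩

theorem Hyp.ba_inj {a a' : A} {b b' : B} (e : β b * α a = β b' * α a') : a = a' ∧ b = b' :=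
  (h.swap.ab_inj e).symm

theorem Hyp.ab_ba {a a' : A} {b b' : B} (e : α a * β b = β b' * α a') : a = 1 ∨ b = 1 := by
  have e' : α a * β b * α a'⁻¹ * β b'⁻¹ = 1 := by
    rw [map_inv, map_inv, e]
    group
  rcases h.p4 _ _ _ _ e' with h1 | h1 | h1 | h1
  · exact Or.inl h1
  · exact Or.inr h1
  · left
    rw [inv_eq_one] at h1
    have : α a * β b = α 1 * β b' := by rw [e, h1]; simp
    exact (h.ab_inj this).1
  · right
    rw [inv_eq_one] at h1
    have : α a * β b = α a' * β 1 := by rw [e, h1]; simp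
    exact (h.ab_inj this).2

/-- the key fact on words of length at most six. -/
theorem Hyp.key {a0 : A} {b0 : B} (ha0 : a0 ≠ 1) (hb0 : b0 ≠ 1) {u : U}
    (hu : ∃ a b, u = α a * β b ∨ u = β b * α a)
    (hu' : ∃ a b, u * (α a0 * β b0) = α a * β b ∨ u * (α a0 * β b0) = β b * α a) :
    (∃ a, u = α a) ∨ ∃ b, b ≠ 1 ∧ u = β b * α a0⁻¹ := by
  obtain ⟨a, b, hu⟩ := hu
  obtain ⟨a', b', hu'⟩ := hu'
  rcases hu with hu | hu
  · by_cases hb : b = 1
    · left
      exact ⟨a, by rw [hu, hb]; simp⟩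
    exfalso
    rcases hu' with hu' | hu'
    · -- `α a β b α a0 β b0 = α a' β b'`
      have e : α (a'⁻¹ * a) * β b * α a0 * β (b0 * b'⁻¹) = 1 := by
        have : α (a'⁻¹ * a) * β b * α a0 * β (b0 * b'⁻¹) =
            (α a')⁻¹ * (u * (α a0 * β b0)) * (β b')⁻¹ := by
          rw [hu]; simp only [map_mul, map_inv]; group
        rw [this, hu']; group
      rcases h.p4 _ _ _ _ e with h1 | h1 | h1 | h1
      · have e2 : α a0 = β (b⁻¹ * b' * b0⁻¹) := by
          have h2 : a' = a := inv_mul_eq_one.mp h1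
          have : α a0 = (β b)⁻¹ * ((α a)⁻¹ * (u * (α a0 * β b0))) * (β b0)⁻¹ := by
            rw [hu]; group
          rw [this, hu', h2]; simp only [map_mul, map_inv]; group
        exact ha0 (h.p2 _ _ e2).1
      · exact hb h1
      · exact ha0 h1
      · have h2 : b0 = b' := mul_inv_eq_one.mp h1
        have e2 : α (a⁻¹ * a' * a0⁻¹) = β b := by
          have : β b = (α a)⁻¹ * ((u * (α a0 * β b0)) * (β b0)⁻¹) * (α a0)⁻¹ := by
            rw [hu]; group
          rw [this, hu', h2]; simp only [map_mul, map_inv]; group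
        exact hb (h.p2 _ _ e2).2
    · have e : α a * β b * α a0 * β b0 * α a'⁻¹ * β b'⁻¹ = 1 := by
        have : α a * β b * α a0 * β b0 * α a'⁻¹ * β b'⁻¹ =
            (u * (α a0 * β b0)) * (α a')⁻¹ * (β b')⁻¹ := by
          rw [hu]; simp only [map_inv]; group
        rw [this, hu']; group
      rcases h.p6 _ _ _ _ _ _ e with h1 | h1 | h1 | h1 | h1 | h1
      · have e2 : α a0 * β b0 = β (b⁻¹ * b') * α a' := by
          have : α a0 * β b0 = (β b)⁻¹ * ((α a)⁻¹ * (u * (α a0 * β b0))) := by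
            rw [hu]; group
          rw [this, hu', h1]; simp only [map_mul, map_inv, map_one]; group
        rcases h.ab_ba e2 with h3 | h3
        · exact ha0 h3
        · exact hb0 h3
      · exact hb h1
      · exact ha0 h1
      · exact hb0 h1
      · rw [inv_eq_one] at h1
        have e2 : α a * β b = β (b' * b0⁻¹) * α a0⁻¹ := by
          have : α a * β b = (u * (α a0 * β b0)) * (β b0)⁻¹ * (α a0)⁻¹ := by
            rw [hu]; group
          rw [this, hu', h1]; simp only [map_mul, map_inv, map_one]; group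
        rcases h.ab_ba e2 with h3 | h3
        · rw [h3] at e2
          have e3 : α a0⁻¹ = β ((b' * b0⁻¹)⁻¹ * b) := by
            rw [map_mul β, map_inv β]
            rw [eq_inv_mul_iff_mul_eq, ← e2]
            simp
          have := (h.p2 _ _ e3).1
          rw [inv_eq_one] at this
          exact ha0 this
        · exact hb h3
      · rw [inv_eq_one] at h1
        have e2 : α (a'⁻¹ * a) * β b = β b0⁻¹ * α a0⁻¹ := by
          have : α (a'⁻¹ * a) * β b = (α a')⁻¹ * (u * (α a0 * β b0)) * (β b0)⁻¹ * (α a0)⁻¹ := by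
            rw [hu]; simp only [map_mul, map_inv]; group
          rw [this, hu', h1]; simp only [map_inv, map_one]; group
        rcases h.ab_ba e2 with h3 | h3
        · rw [h3] at e2
          have e3 : α a0⁻¹ = β ((b0⁻¹)⁻¹ * b) := by
            rw [map_mul β, map_inv β (b0⁻¹)]
            rw [eq_inv_mul_iff_mul_eq, ← e2]
            simp
          have := (h.p2 _ _ e3).1
          rw [inv_eq_one] at this
          exact ha0 this
        · exact hb h3
  · by_cases hb : b = 1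
    · left
      exact ⟨a, by rw [hu, hb]; simp⟩
    right
    refine ⟨b, hb, ?_⟩
    have haa : a * a0 = 1 := by
      rcases hu' with hu' | hu'
      · have e2 : α a' * β (b' * b0⁻¹) = β b * α (a * a0) := by
          have : β b * α (a * a0) = (u * (α a0 * β b0)) * (β b0)⁻¹ := by
            rw [hu]; simp only [map_mul]; group
          rw [this, hu']; simp only [map_mul, map_inv]; group
        rcases h.ab_ba e2 with h3 | h3
        · have e3 : α (a * a0) = β (b⁻¹ * (b' * b0⁻¹)) := by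
            rw [map_mul β, map_inv β, eq_inv_mul_iff_mul_eq, ← e2, h3]
            simp
          exact (h.p2 _ _ e3).1
        · exfalso
          have e3 : α (a' * (a * a0)⁻¹) = β b := by
            rw [map_mul α, map_inv α, mul_inv_eq_iff_eq_mul, ← e2, h3]
            simp
          exact hb (h.p2 _ _ e3).2
      · have e2 : α (a * a0) * β b0 = β (b⁻¹ * b') * α a' := by
          have : α (a * a0) * β b0 = (β b)⁻¹ * (u * (α a0 * β b0)) := by
            rw [hu]; simp only [map_mul]; group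
          rw [this, hu']; simp only [map_mul, map_inv]; group
        rcases h.ab_ba e2 with h3 | h3
        · exact h3
        · exact absurd h3 hb0
    rw [hu, eq_inv_of_mul_eq_one_left haa]

end Words

section Level

variable {α : A →* U} {β : B →* U} {t1 : I1 → W} {t2 : I2 → W} {t3 : I3 → W}
  (h : Hyp α β t1 t2 t3)

include h

theorem Hyp.inD_one (u : U) (k : K) :
    InD α β t1 t2 t3 (u, k, (1 : W)) ↔ ∃ a b, u = α a * β b ∨ u = β b * α a := by
  unfold InD
  constructor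
  · rintro (⟨_, h1⟩ | ⟨i, h1, _⟩ | ⟨i, h1, _⟩ | ⟨i, h1, _⟩)
    · exact h1
    · exact absurd h1.symm (h.ne1 i)
    · exact absurd h1.symm (h.ne2 i)
    · exact absurd h1.symm (h.ne3 i)
  · intro h1
    exact Or.inl ⟨rfl, h1⟩

theorem Hyp.inD_t1 (u : U) (k : K) (i : I1) :
    InD α β t1 t2 t3 (u, k, t1 i) ↔ ∃ a, a ≠ 1 ∧ u = α a := by
  unfold InD
  constructor
  · rintro (⟨h1, _⟩ | ⟨j, _, h1⟩ | ⟨j, h1, _⟩ | ⟨j, h1, _⟩)
    · exact absurd h1 (h.ne1 i)
    · exact h1
    · exact absurd h1 (h.d12 i j)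
    · exact absurd h1 (h.d13 i j)
  · intro h1
    exact Or.inr (Or.inl ⟨i, rfl, h1⟩)

theorem Hyp.inD_t2 (u : U) (k : K) (i : I2) :
    InD α β t1 t2 t3 (u, k, t2 i) ↔ ∃ b, b ≠ 1 ∧ u = β b := by
  rw [inD_swap]
  exact h.swap.inD_t1 u k i

theorem Hyp.inD_t3 (u : U) (k : K) (i : I3) :
    InD α β t1 t2 t3 (u, k, t3 i) ↔ u = 1 ∧ k = 1 := by
  unfold InD
  constructor
  · rintro (⟨h1, _⟩ | ⟨j, h1, _⟩ | ⟨j, h1, _⟩ | ⟨j, _, h1⟩)
    · exact absurd h1 (h.ne3 i)
    · exact absurd h1.symm (h.d13 j i)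
    · exact absurd h1.symm (h.d23 j i)
    · exact h1
  · intro h1
    exact Or.inr (Or.inr (Or.inr ⟨i, rfl, h1⟩))

omit h in
/-- the third coordinate of an element of `D` is `1` or one of the involutions. -/
theorem inD_w {g : U × K × W} (hg : InD α β t1 t2 t3 g) :
    g.2.2 = 1 ∨ g.2.2 ∈ Set.range t1 ∪ Set.range t2 ∪ Set.range t3 := by
  rcases hg with ⟨h1, _⟩ | ⟨j, h1, _⟩ | ⟨j, h1, _⟩ | ⟨j, h1, _⟩
  · exact Or.inl h1
  · right; rw [h1]; exact Or.inl (Or.inl ⟨j, rfl⟩)
  · right; rw [h1]; exact Or.inl (Or.inr ⟨j, rfl⟩)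
  · right; rw [h1]; exact Or.inr ⟨j, rfl⟩

/-- if `w, t ∈ T`, and `w * t` is the third coordinate of an element of `D`, then `w = t`. -/
theorem Hyp.w_eq {w t : W} (hw : w ∈ Set.range t1 ∪ Set.range t2 ∪ Set.range t3)
    (ht : t ∈ Set.range t1 ∪ Set.range t2 ∪ Set.range t3)
    (hwt : w * t = 1 ∨ w * t ∈ Set.range t1 ∪ Set.range t2 ∪ Set.range t3) : w = t := by
  rcases hwt with hwt | hwt
  · have : t * t = 1 := by
      rcases ht with (⟨i, rfl⟩ | ⟨i, rfl⟩) | ⟨i, rfl⟩
      · exact h.sq1 i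
      · exact h.sq2 i
      · exact h.sq3 i
    rw [← this] at hwt
    exact mul_right_cancel hwt
  · exact absurd rfl (h.sf w t _ hw ht hwt)

end Level

end Pool.Agent.Helper70.Flip
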