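import Mathlib
import Pool.Agent.Helper70.FlipGeom

set_option autoImplicit false
set_option linter.unusedSectionVars false

namespace Pool.Agent.Helper70.Flip

open Finset

section Count

variable {A B U K W I1 I2 I3 : Type} [Group A] [Group B] [Group U] [Group K] [Group W]
  [Fintype A] [Fintype B] [Fintype U] [Fintype K] [Fintype W] [Fintype I1] [Fintype I2]
  [Fintype I3]

open scoped Classical in
/-- the closed neighbourhood of the identity. -/
noncomputable def DD (α : A →* U) (β : B →* U) (t1 : I1 → W) (t2 : I2 → W) (t3 : I3 → W) :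
    Finset (U × K × W) := univ.filter (InD α β t1 t2 t3)

open scoped Classical in
/-- the number of elements `g` of `D` with `g * s ∈ D`. -/
noncomputable def rr (α : A →* U) (β : B →* U) (t1 : I1 → W) (t2 : I2 → W) (t3 : I3 → W)
    (s : U × K × W) : ℕ :=
  #{g ∈ DD α β t1 t2 t3 | g * s ∈ DD α β t1 t2 t3}

theorem rr_swap (α : A →* U) (β : B →* U) (t1 : I1 → W) (t2 : I2 → W) (t3 : I3 → W)
    (s : U × K × W) : rr α β t1 t2 t3 s = rr β α t2 t1 t3 s := by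
  have : (DD α β t1 t2 t3 : Finset (U × K × W)) = DD β α t2 t1 t3 := by
    ext g
    simp only [DD, mem_filter, mem_univ, true_and]
    exact inD_swap α β t1 t2 t3 g
  unfold rr
  rw [this]

/-- lower bound for `rr` from an injection. -/
theorem le_rr {α : A →* U} {β : B →* U} {t1 : I1 → W} {t2 : I2 → W} {t3 : I3 → W}
    {s : U × K × W} {X : Type} [Fintype X] (f : X → U × K × W) (hf : Function.Injective f)
    (h1 : ∀ x, InD α β t1 t2 t3 (f x)) (h2 : ∀ x, InD α β t1 t2 t3 (f x * s)) :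
    Fintype.card X ≤ rr α β t1 t2 t3 s := by
  classical
  have hsub : (univ : Finset X).image f ⊆
      ({g ∈ DD α β t1 t2 t3 | g * s ∈ DD α β t1 t2 t3} : Finset (U × K × W)) := by
    intro g hg
    rw [mem_image] at hg
    obtain ⟨x, _, rfl⟩ := hg
    simp only [DD, mem_filter, mem_univ, true_and]
    exact ⟨h1 x, h2 x⟩
  have := card_le_card hsub
  rw [card_image_of_injective _ hf, card_univ] at this
  unfold rr
  convert this

/-- upper bound for `rr` from a surjection. -/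
theorem rr_le {α : A →* U} {β : B →* U} {t1 : I1 → W} {t2 : I2 → W} {t3 : I3 → W}
    {s : U × K × W} {X : Type} [Fintype X] (f : X → U × K × W)
    (h1 : ∀ g, InD α β t1 t2 t3 g → InD α β t1 t2 t3 (g * s) → ∃ x, f x = g) :
    rr α β t1 t2 t3 s ≤ Fintype.card X := by
  classical
  have hsub : ({g ∈ DD α β t1 t2 t3 | g * s ∈ DD α β t1 t2 t3} : Finset (U × K × W)) ⊆
      univ.image f := by
    intro g hg
    simp only [DD, mem_filter, mem_univ, true_and] at hg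
    obtain ⟨x, hx⟩ := h1 g hg.1 hg.2
    rw [mem_image]
    exact ⟨x, mem_univ _, hx⟩
  have := (card_le_card hsub).trans card_image_le
  rw [card_univ] at this
  unfold rr
  convert this

variable {α : A →* U} {β : B →* U} {t1 : I1 → W} {t2 : I2 → W} {t3 : I3 → W}
  (h : Hyp α β t1 t2 t3)

include h

theorem Hyp.rA_lower (a0 : A) (ha0 : a0 ≠ 1) (k0 : K) :
    Fintype.card B * (Fintype.card A * Fintype.card K) +
      Fintype.card I1 * ((Fintype.card A - 2) * Fintype.card K) ≤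
      rr α β t1 t2 t3 (α a0, k0, (1 : W)) := by
  classical
  have hcard : Fintype.card {a : A // a ≠ 1 ∧ a * a0 ≠ 1} = Fintype.card A - 2 := by
    rw [Fintype.card_subtype]
    have : (univ.filter fun a : A => a ≠ 1 ∧ a * a0 ≠ 1) = univ \ {1, a0⁻¹} := by
      ext a
      simp only [mem_filter, mem_univ, true_and, mem_sdiff, mem_insert, mem_singleton, not_or]
      rw [Ne, Ne, mul_eq_one_iff_eq_inv]
    rw [this, card_univ_sdiff, card_pair]
    intro e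
    exact ha0 (by rw [eq_comm, inv_eq_one] at e; exact e)
  rw [← hcard, ← Fintype.card_prod, ← Fintype.card_prod, ← Fintype.card_prod,
    ← Fintype.card_prod, ← Fintype.card_sum]
  refine le_rr (X := (B × A × K) ⊕ (I1 × {a : A // a ≠ 1 ∧ a * a0 ≠ 1} × K))
    (Sum.elim (fun x => (β x.1 * α x.2.1, x.2.2, 1)) (fun x => (α x.2.1.1, x.2.2, t1 x.1)))
    ?_ ?_ ?_
  · rintro (⟨b, a, k⟩ | ⟨i, ⟨a, ha⟩, k⟩) (⟨b', a', k'⟩ | ⟨i', ⟨a', ha'⟩, k'⟩) e
    · simp only [Sum.elim_inl, Prod.mk.injEq, and_true] at e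
      obtain ⟨e1, e2⟩ := e
      obtain ⟨rfl, rfl⟩ := h.ba_inj e1
      rw [e2]
    · simp only [Sum.elim_inl, Sum.elim_inr, Prod.mk.injEq] at e
      exact absurd e.2.2.symm (h.ne1 _)
    · simp only [Sum.elim_inl, Sum.elim_inr, Prod.mk.injEq] at e
      exact absurd e.2.2 (h.ne1 _)
    · simp only [Sum.elim_inr, Prod.mk.injEq] at e
      obtain ⟨e1, e2, e3⟩ := e
      have := h.a_inj e1
      subst this
      have := h.inj1 e3
      subst this
      rw [e2]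
  · rintro (⟨b, a, k⟩ | ⟨i, ⟨a, ha⟩, k⟩)
    · exact (h.inD_one _ _).mpr ⟨a, b, Or.inr rfl⟩
    · exact (h.inD_t1 _ _ _).mpr ⟨a, ha.1, rfl⟩
  · rintro (⟨b, a, k⟩ | ⟨i, ⟨a, ha⟩, k⟩)
    · simp only [Sum.elim_inl, Prod.mk_mul_mk, mul_one]
      exact (h.inD_one _ _).mpr ⟨a * a0, b, Or.inr (by rw [map_mul, mul_assoc])⟩
    · simp only [Sum.elim_inr, Prod.mk_mul_mk, mul_one]
      exact (h.inD_t1 _ _ _).mpr ⟨a * a0, ha.2, by rw [map_mul]⟩

theorem Hyp.rK_lower (k0 : K) :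
    Fintype.card A * (Fintype.card B * Fintype.card K) +
      ((Fintype.card B - 1) * ((Fintype.card A - 1) * Fintype.card K) +
      (Fintype.card I1 * ((Fintype.card A - 1) * Fintype.card K) +
      Fintype.card I2 * ((Fintype.card B - 1) * Fintype.card K))) ≤
      rr α β t1 t2 t3 ((1 : U), k0, (1 : W)) := by
  classical
  have hcA : Fintype.card {a : A // a ≠ 1} = Fintype.card A - 1 := by
    rw [Fintype.card_subtype_compl, Fintype.card_subtype_eq]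
  have hcB : Fintype.card {b : B // b ≠ 1} = Fintype.card B - 1 := by
    rw [Fintype.card_subtype_compl, Fintype.card_subtype_eq]
  rw [← hcA, ← hcB]
  simp only [← Fintype.card_prod, ← Fintype.card_sum]
  refine le_rr (X := (A × B × K) ⊕ (({b : B // b ≠ 1} × {a : A // a ≠ 1} × K) ⊕
      ((I1 × {a : A // a ≠ 1} × K) ⊕ (I2 × {b : B // b ≠ 1} × K))))
    (Sum.elim (fun x => (α x.1 * β x.2.1, x.2.2, 1))
      (Sum.elim (fun x => (β x.1 * α x.2.1, x.2.2, 1))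
        (Sum.elim (fun x => (α x.2.1, x.2.2, t1 x.1)) (fun x => (β x.2.1, x.2.2, t2 x.1)))))
    ?_ ?_ ?_
  · rintro (⟨a, b, k⟩ | ⟨⟨b, hb⟩, ⟨a, ha⟩, k⟩ | ⟨i, ⟨a, ha⟩, k⟩ | ⟨i, ⟨b, hb⟩, k⟩)
      (⟨a', b', k'⟩ | ⟨⟨b', hb'⟩, ⟨a', ha'⟩, k'⟩ | ⟨i', ⟨a', ha'⟩, k'⟩ | ⟨i', ⟨b', hb'⟩, k'⟩) e <;>
      simp only [Sum.elim_inl, Sum.elim_inr, Prod.mk.injEq, and_true] at e
    · obtain ⟨e1, e2⟩ := e
      obtain ⟨rfl, rfl⟩ := h.ab_inj e1
      rw [e2]
    · rcases h.swap.ab_ba e.1.symm with h1 | h1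
      · exact absurd h1 hb'
      · exact absurd h1 ha'
    · exact absurd e.2.2.symm (h.ne1 _)
    · exact absurd e.2.2.symm (h.ne2 _)
    · rcases h.swap.ab_ba e.1 with h1 | h1
      · exact absurd h1 hb
      · exact absurd h1 ha
    · obtain ⟨e1, e2⟩ := e
      obtain ⟨rfl, rfl⟩ := h.ba_inj e1
      rw [e2]
    · exact absurd e.2.2.symm (h.ne1 _)
    · exact absurd e.2.2.symm (h.ne2 _)
    · exact absurd e.2.2 (h.ne1 _)
    · exact absurd e.2.2 (h.ne1 _)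
    · obtain ⟨e1, e2, e3⟩ := e
      have := h.a_inj e1
      subst this
      have := h.inj1 e3
      subst this
      rw [e2]
    · exact absurd e.2.2 (h.d12 _ _)
    · exact absurd e.2.2 (h.ne2 _)
    · exact absurd e.2.2 (h.ne2 _)
    · exact absurd e.2.2.symm (h.d12 _ _)
    · obtain ⟨e1, e2, e3⟩ := e
      have := h.b_inj e1
      subst this
      have := h.inj2 e3
      subst this
      rw [e2]
  · rintro (⟨a, b, k⟩ | ⟨⟨b, hb⟩, ⟨a, ha⟩, k⟩ | ⟨i, ⟨a, ha⟩, k⟩ | ⟨i, ⟨b, hb⟩, k⟩)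
    · exact (h.inD_one _ _).mpr ⟨a, b, Or.inl rfl⟩
    · exact (h.inD_one _ _).mpr ⟨a, b, Or.inr rfl⟩
    · exact (h.inD_t1 _ _ _).mpr ⟨a, ha, rfl⟩
    · exact (h.inD_t2 _ _ _).mpr ⟨b, hb, rfl⟩
  · rintro (⟨a, b, k⟩ | ⟨⟨b, hb⟩, ⟨a, ha⟩, k⟩ | ⟨i, ⟨a, ha⟩, k⟩ | ⟨i, ⟨b, hb⟩, k⟩) <;>
      simp only [Sum.elim_inl, Sum.elim_inr, Prod.mk_mul_mk, mul_one]
    · exact (h.inD_one _ _).mpr ⟨a, b, Or.inl rfl⟩
    · exact (h.inD_one _ _).mpr ⟨a, b, Or.inr rfl⟩
    · exact (h.inD_t1 _ _ _).mpr ⟨a, ha, rfl⟩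
    · exact (h.inD_t2 _ _ _).mpr ⟨b, hb, rfl⟩

theorem Hyp.rAB_lower (a0 : A) (b0 : B) (k0 : K) :
    Fintype.card A * Fintype.card K + (Fintype.card B - 1) * Fintype.card K ≤
      rr α β t1 t2 t3 (α a0 * β b0, k0, (1 : W)) := by
  classical
  have hcB : Fintype.card {b : B // b ≠ 1} = Fintype.card B - 1 := by
    rw [Fintype.card_subtype_compl, Fintype.card_subtype_eq]
  rw [← hcB]
  simp only [← Fintype.card_prod, ← Fintype.card_sum]
  refine le_rr (X := (A × K) ⊕ ({b : B // b ≠ 1} × K))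
    (Sum.elim (fun x => (α x.1, x.2, 1)) (fun x => (β x.1 * α a0⁻¹, x.2, 1))) ?_ ?_ ?_
  · rintro (⟨a, k⟩ | ⟨⟨b, hb⟩, k⟩) (⟨a', k'⟩ | ⟨⟨b', hb'⟩, k'⟩) e <;>
      simp only [Sum.elim_inl, Sum.elim_inr, Prod.mk.injEq, and_true] at e
    · obtain ⟨e1, e2⟩ := e
      have := h.a_inj e1
      subst this
      rw [e2]
    · have e1 : β b' * α a0⁻¹ = β 1 * α a := by rw [← e.1]; simp
      exact absurd (h.ba_inj e1).2 hb'
    · have e1 : β b * α a0⁻¹ = β 1 * α a' := by rw [e.1]; simp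
      exact absurd (h.ba_inj e1).2 hb
    · obtain ⟨e1, e2⟩ := e
      obtain ⟨_, rfl⟩ := h.ba_inj e1
      rw [e2]
  · rintro (⟨a, k⟩ | ⟨⟨b, hb⟩, k⟩)
    · exact (h.inD_one _ _).mpr ⟨a, 1, Or.inl (by simp)⟩
    · exact (h.inD_one _ _).mpr ⟨a0⁻¹, b, Or.inr rfl⟩
  · rintro (⟨a, k⟩ | ⟨⟨b, hb⟩, k⟩) <;>
      simp only [Sum.elim_inl, Sum.elim_inr, Prod.mk_mul_mk, mul_one]
    · exact (h.inD_one _ _).mpr ⟨a * a0, b0, Or.inl (by rw [map_mul, mul_assoc])⟩
    · refine (h.inD_one _ _).mpr ⟨1, b * b0, Or.inr ?_⟩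
      simp only [map_mul, map_inv, map_one]
      group

theorem Hyp.rAB_upper (a0 : A) (ha0 : a0 ≠ 1) (b0 : B) (hb0 : b0 ≠ 1) (k0 : K) :
    rr α β t1 t2 t3 (α a0 * β b0, k0, (1 : W)) ≤
      Fintype.card A * Fintype.card K + (Fintype.card B - 1) * Fintype.card K := by
  classical
  have hcB : Fintype.card {b : B // b ≠ 1} = Fintype.card B - 1 := by
    rw [Fintype.card_subtype_compl, Fintype.card_subtype_eq]
  rw [← hcB]
  simp only [← Fintype.card_prod, ← Fintype.card_sum]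
  refine rr_le (X := (A × K) ⊕ ({b : B // b ≠ 1} × K))
    (Sum.elim (fun x => (α x.1, x.2, 1)) (fun x => (β x.1 * α a0⁻¹, x.2, 1))) ?_
  rintro ⟨u, k, w⟩ hg hgs
  simp only [Prod.mk_mul_mk, mul_one] at hgs
  rcases inD_w hg with hw | hw
  · simp only at hw
    subst hw
    rw [h.inD_one] at hg hgs
    rcases h.key ha0 hb0 hg hgs with ⟨a, rfl⟩ | ⟨b, hb, rfl⟩
    · exact ⟨Sum.inl (a, k), rfl⟩
    · exact ⟨Sum.inr (⟨b, hb⟩, k), rfl⟩
  · exfalso
    rcases hw with (⟨i, hi⟩ | ⟨i, hi⟩) | ⟨i, hi⟩ <;> simp only at hi <;> subst hi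
    · rw [h.inD_t1] at hg hgs
      obtain ⟨a, _, rfl⟩ := hg
      obtain ⟨a', _, e⟩ := hgs
      have : α (a0⁻¹ * (a⁻¹ * a')) = β b0 := by
        rw [map_mul, map_mul, map_inv, map_inv, ← e]; group
      exact hb0 (h.p2 _ _ this).2
    · rw [h.inD_t2] at hg hgs
      obtain ⟨b, _, rfl⟩ := hg
      obtain ⟨b', _, e⟩ := hgs
      have : α a0 = β (b⁻¹ * b' * b0⁻¹) := by
        rw [map_mul, map_mul, map_inv, map_inv, ← e]; group
      exact ha0 (h.p2 _ _ this).1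
    · rw [h.inD_t3] at hg hgs
      obtain ⟨rfl, _⟩ := hg
      have e := hgs.1
      rw [one_mul] at e
      have : α a0 = β b0⁻¹ := by
        rw [map_inv, eq_inv_iff_mul_eq_one]; exact e
      exact ha0 (h.p2 _ _ this).1

theorem Hyp.rT1_upper (a0 : A) (k0 : K) (i0 : I1) :
    rr α β t1 t2 t3 (α a0, k0, t1 i0) ≤
      (Fintype.card A - 1) * Fintype.card K + (Fintype.card A - 1) * Fintype.card K := by
  classical
  have hcA : Fintype.card {a : A // a ≠ 1} = Fintype.card A - 1 := by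
    rw [Fintype.card_subtype_compl, Fintype.card_subtype_eq]
  rw [← hcA]
  simp only [← Fintype.card_prod, ← Fintype.card_sum]
  refine rr_le (X := ({a : A // a ≠ 1} × K) ⊕ ({a : A // a ≠ 1} × K))
    (Sum.elim (fun x => (α (x.1 * a0⁻¹), x.2, 1)) (fun x => (α x.1, x.2, t1 i0))) ?_
  rintro ⟨u, k, w⟩ hg hgs
  simp only [Prod.mk_mul_mk] at hgs
  have hwt := inD_w hgs
  rcases inD_w hg with hw | hw
  · simp only at hw
    subst hw
    rw [one_mul, h.inD_t1] at hgs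
    obtain ⟨a, ha, e⟩ := hgs
    refine ⟨Sum.inl (⟨a, ha⟩, k), ?_⟩
    simp only [Sum.elim_inl, map_mul, map_inv, ← e]
    group
  · have hw' : w = t1 i0 := h.w_eq hw (Or.inl (Or.inl ⟨i0, rfl⟩)) hwt
    subst hw'
    rw [h.inD_t1] at hg
    obtain ⟨a, ha, rfl⟩ := hg
    exact ⟨Sum.inr (⟨a, ha⟩, k), rfl⟩

theorem Hyp.rT3_upper (i0 : I3) :
    rr α β t1 t2 t3 ((1 : U), (1 : K), t3 i0) ≤ 2 := by
  classical
  have : (2 : ℕ) = Fintype.card Bool := rfl
  rw [this]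
  refine rr_le (X := Bool) (fun x => ((1 : U), (1 : K), if x then t3 i0 else 1)) ?_
  rintro ⟨u, k, w⟩ hg hgs
  simp only [Prod.mk_mul_mk, mul_one] at hgs
  have hwt := inD_w hgs
  rcases inD_w hg with hw | hw
  · simp only at hw
    subst hw
    rw [one_mul, h.inD_t3] at hgs
    obtain ⟨rfl, rfl⟩ := hgs
    exact ⟨false, by simp⟩
  · have hw' : w = t3 i0 := h.w_eq hw (Or.inr ⟨i0, rfl⟩) hwt
    subst hw'
    rw [h.inD_t3] at hg
    obtain ⟨rfl, rfl⟩ := hg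
    exact ⟨true, by simp⟩

end Count

end Pool.Agent.Helper70.Flip
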