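import Mathlib
import Pool.Agent.Helper70.FlipCount

set_option autoImplicit false
set_option linter.unusedSectionVars false
set_option linter.unusedSimpArgs false

namespace Pool.Agent.Helper70.Flip

open Finset

section Lower

variable {A B U K W I1 I2 I3 : Type} [Group A] [Group B] [Group U] [Group K] [Group W]
  [Fintype A] [Fintype B] [Fintype U] [Fintype K] [Fintype W] [Fintype I1] [Fintype I2]
  [Fintype I3]

/-- parametrization of the connection set of the first colour. -/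
def e0 (α : A →* U) (β : B →* U) :
    ({a : A // a ≠ 1} × K) ⊕ (({b : B // b ≠ 1} × K) ⊕ {k : K // k ≠ 1}) → U × K × W :=
  Sum.elim (fun x => (α x.1, x.2, 1)) (Sum.elim (fun x => (β x.1, x.2, 1)) (fun x => (1, x, 1)))

/-- parametrization of the connection set of the second colour. -/
def e1 (α : A →* U) (β : B →* U) :
    ({a : A // a ≠ 1} × {b : B // b ≠ 1} × K) ⊕ ({a : A // a ≠ 1} × {b : B // b ≠ 1} × K) →
      U × K × W :=
  Sum.elim (fun x => (α x.1 * β x.2.1, x.2.2, 1)) (fun x => (β x.2.1 * α x.1, x.2.2, 1))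

/-- parametrization of the connection set of the third colour. -/
def e2 (α : A →* U) (β : B →* U) (t1 : I1 → W) (t2 : I2 → W) (t3 : I3 → W) :
    (I1 × {a : A // a ≠ 1} × K) ⊕ ((I2 × {b : B // b ≠ 1} × K) ⊕ I3) → U × K × W :=
  Sum.elim (fun x => (α x.2.1, x.2.2, t1 x.1))
    (Sum.elim (fun x => (β x.2.1, x.2.2, t2 x.1)) (fun x => (1, 1, t3 x)))

variable {α : A →* U} {β : B →* U} {t1 : I1 → W} {t2 : I2 → W} {t3 : I3 → W}
  (h : Hyp α β t1 t2 t3)

include h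

theorem Hyp.e0_inj : Function.Injective (e0 α β : _ → U × K × W) := by
  rintro (⟨⟨a, ha⟩, k⟩ | ⟨⟨b, hb⟩, k⟩ | ⟨k, hk⟩) (⟨⟨a', ha'⟩, k'⟩ | ⟨⟨b', hb'⟩, k'⟩ | ⟨k', hk'⟩) e <;>
    simp only [e0, Sum.elim_inl, Sum.elim_inr, Prod.mk.injEq, and_true, true_and] at e
  · obtain ⟨e1, e2⟩ := e
    have := h.a_inj e1
    subst this
    rw [e2]
  · exact absurd (h.p2 _ _ e.1).1 ha
  · exact absurd (h.p2 _ 1 (by simpa using e.1)).1 ha
  · exact absurd (h.p2 _ _ e.1.symm).1 ha'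
  · obtain ⟨e1, e2⟩ := e
    have := h.b_inj e1
    subst this
    rw [e2]
  · exact absurd (h.p2 1 _ (by simpa using e.1.symm)).2 hb
  · exact absurd (h.p2 _ 1 (by simpa using e.1.symm)).1 ha'
  · exact absurd (h.p2 1 _ (by simpa using e.1)).2 hb'
  · subst e; rfl

theorem Hyp.e1_inj : Function.Injective (e1 α β : _ → U × K × W) := by
  rintro (⟨⟨a, ha⟩, ⟨b, hb⟩, k⟩ | ⟨⟨a, ha⟩, ⟨b, hb⟩, k⟩)
    (⟨⟨a', ha'⟩, ⟨b', hb'⟩, k'⟩ | ⟨⟨a', ha'⟩, ⟨b', hb'⟩, k'⟩) e <;>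
    simp only [e1, Sum.elim_inl, Sum.elim_inr, Prod.mk.injEq, and_true, true_and] at e
  · obtain ⟨e1, e2⟩ := e
    obtain ⟨rfl, rfl⟩ := h.ab_inj e1
    rw [e2]
  · rcases h.ab_ba e.1 with h1 | h1
    · exact absurd h1 ha
    · exact absurd h1 hb
  · rcases h.ab_ba e.1.symm with h1 | h1
    · exact absurd h1 ha'
    · exact absurd h1 hb'
  · obtain ⟨e1, e2⟩ := e
    obtain ⟨rfl, rfl⟩ := h.ba_inj e1
    rw [e2]

theorem Hyp.e2_inj : Function.Injective (e2 α β t1 t2 t3 : _ → U × K × W) := by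
  rintro (⟨i, ⟨a, ha⟩, k⟩ | ⟨i, ⟨b, hb⟩, k⟩ | i) (⟨i', ⟨a', ha'⟩, k'⟩ | ⟨i', ⟨b', hb'⟩, k'⟩ | i') e <;>
    simp only [e2, Sum.elim_inl, Sum.elim_inr, Prod.mk.injEq, and_true, true_and] at e
  · obtain ⟨e1, e2, e3⟩ := e
    have := h.a_inj e1
    subst this
    have := h.inj1 e3
    subst this
    rw [e2]
  · exact absurd e.2.2 (h.d12 _ _)
  · exact absurd e.2.2 (h.d13 _ _)
  · exact absurd e.2.2.symm (h.d12 _ _)
  · obtain ⟨e1, e2, e3⟩ := e
    have := h.b_inj e1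
    subst this
    have := h.inj2 e3
    subst this
    rw [e2]
  · exact absurd e.2.2 (h.d23 _ _)
  · exact absurd e.2.2.symm (h.d13 _ _)
  · exact absurd e.2.2.symm (h.d23 _ _)
  · have := h.inj3 e
    subst this
    rfl

open scoped Classical in
/-- the main construction. -/
theorem Hyp.flip (n : ℕ) (r : ℕ) (hA : Fintype.card A = n + 3) (hB : Fintype.card B = n + 3)
    (hK : Fintype.card K = n + 3) (hI1 : Fintype.card I1 = n) (hI2 : Fintype.card I2 = n)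
    (hI3 : Fintype.card I3 = r) (hr : r + 1 = 5 * ((n + 2) * (n + 3)) ^ 2) :
    ∃ G : SimpleGraph (U × K × W), IsFlipGraph
      ![2 * ((n + 2) * (n + 3)) + (n + 2), 2 * ((n + 2) * ((n + 2) * (n + 3))),
        2 * (n * ((n + 2) * (n + 3))) + r] G := by
  have hcA : Fintype.card {a : A // a ≠ 1} = n + 2 := by
    rw [Fintype.card_subtype_compl, Fintype.card_subtype_eq, hA]; rfl
  have hcB : Fintype.card {b : B // b ≠ 1} = n + 2 := by
    rw [Fintype.card_subtype_compl, Fintype.card_subtype_eq, hB]; rfl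
  have hcK : Fintype.card {k : K // k ≠ 1} = n + 2 := by
    rw [Fintype.card_subtype_compl, Fintype.card_subtype_eq, hK]; rfl
  obtain ⟨S, hS0, hS1, hS2⟩ : ∃ S : Fin 3 → Finset (U × K × W),
      S 0 = univ.image (e0 α β) ∧ S 1 = univ.image (e1 α β) ∧
        S 2 = univ.image (e2 α β t1 t2 t3) :=
    ⟨![univ.image (e0 α β), univ.image (e1 α β), univ.image (e2 α β t1 t2 t3)], rfl, rfl, rfl⟩
  -- membership in the three sets
  have m0 : ∀ g, g ∈ S 0 ↔ (∃ a, a ≠ 1 ∧ ∃ k, g = (α a, k, (1 : W))) ∨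
      (∃ b, b ≠ 1 ∧ ∃ k, g = (β b, k, (1 : W))) ∨ ∃ k, k ≠ 1 ∧ g = ((1 : U), k, (1 : W)) := by
    intro g
    rw [hS0, mem_image]
    constructor
    · rintro ⟨⟨⟨a, ha⟩, k⟩ | ⟨⟨b, hb⟩, k⟩ | ⟨k, hk⟩, _, rfl⟩
      · exact Or.inl ⟨a, ha, k, rfl⟩
      · exact Or.inr (Or.inl ⟨b, hb, k, rfl⟩)
      · exact Or.inr (Or.inr ⟨k, hk, rfl⟩)
    · rintro (⟨a, ha, k, rfl⟩ | ⟨b, hb, k, rfl⟩ | ⟨k, hk, rfl⟩)
      · exact ⟨Sum.inl (⟨a, ha⟩, k), mem_univ _, rfl⟩
      · exact ⟨Sum.inr (Sum.inl (⟨b, hb⟩, k)), mem_univ _, rfl⟩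
      · exact ⟨Sum.inr (Sum.inr ⟨k, hk⟩), mem_univ _, rfl⟩
  have m1 : ∀ g, g ∈ S 1 ↔ ∃ a, a ≠ 1 ∧ ∃ b, b ≠ 1 ∧ ∃ k,
      (g = (α a * β b, k, (1 : W)) ∨ g = (β b * α a, k, (1 : W))) := by
    intro g
    rw [hS1, mem_image]
    constructor
    · rintro ⟨⟨⟨a, ha⟩, ⟨b, hb⟩, k⟩ | ⟨⟨a, ha⟩, ⟨b, hb⟩, k⟩, _, rfl⟩
      · exact ⟨a, ha, b, hb, k, Or.inl rfl⟩
      · exact ⟨a, ha, b, hb, k, Or.inr rfl⟩
    · rintro ⟨a, ha, b, hb, k, rfl | rfl⟩
      · exact ⟨Sum.inl (⟨a, ha⟩, ⟨b, hb⟩, k), mem_univ _, rfl⟩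
      · exact ⟨Sum.inr (⟨a, ha⟩, ⟨b, hb⟩, k), mem_univ _, rfl⟩
  have m2 : ∀ g, g ∈ S 2 ↔ (∃ i, ∃ a, a ≠ 1 ∧ ∃ k, g = (α a, k, t1 i)) ∨
      (∃ i, ∃ b, b ≠ 1 ∧ ∃ k, g = (β b, k, t2 i)) ∨ ∃ i, g = ((1 : U), (1 : K), t3 i) := by
    intro g
    rw [hS2, mem_image]
    constructor
    · rintro ⟨⟨i, ⟨a, ha⟩, k⟩ | ⟨i, ⟨b, hb⟩, k⟩ | i, _, rfl⟩
      · exact Or.inl ⟨i, a, ha, k, rfl⟩
      · exact Or.inr (Or.inl ⟨i, b, hb, k, rfl⟩)
      · exact Or.inr (Or.inr ⟨i, rfl⟩)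
    · rintro (⟨i, a, ha, k, rfl⟩ | ⟨i, b, hb, k, rfl⟩ | ⟨i, rfl⟩)
      · exact ⟨Sum.inl (i, ⟨a, ha⟩, k), mem_univ _, rfl⟩
      · exact ⟨Sum.inr (Sum.inl (i, ⟨b, hb⟩, k)), mem_univ _, rfl⟩
      · exact ⟨Sum.inr (Sum.inr i), mem_univ _, rfl⟩
  have hj : ∀ j : Fin 3, j = 0 ∨ j = 1 ∨ j = 2 := by decide
  -- the identity is in none of them
  have n0 : (1 : U × K × W) ∉ S 0 := by
    rw [m0]
    rintro (⟨a, ha, k, e⟩ | ⟨b, hb, k, e⟩ | ⟨k, hk, e⟩) <;>
      simp only [Prod.ext_iff, Prod.fst_one, Prod.snd_one, and_true] at e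
    · exact ha (h.p2 a 1 (by simpa using e.1.symm)).1
    · exact hb (h.p2 1 b (by simpa using e.1)).2
    · exact hk e.2.symm
  have n1 : (1 : U × K × W) ∉ S 1 := by
    rw [m1]
    rintro ⟨a, ha, b, hb, k, e | e⟩ <;>
      simp only [Prod.ext_iff, Prod.fst_one, Prod.snd_one, and_true] at e
    · exact ha (h.ab_inj (a := a) (b := b) (a' := 1) (b' := 1) (by simpa using e.1.symm)).1
    · exact ha (h.ba_inj (a := a) (b := b) (a' := 1) (b' := 1) (by simpa using e.1.symm)).1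
  have n2 : (1 : U × K × W) ∉ S 2 := by
    rw [m2]
    rintro (⟨i, a, ha, k, e⟩ | ⟨i, b, hb, k, e⟩ | ⟨i, e⟩) <;>
      simp only [Prod.ext_iff, Prod.fst_one, Prod.snd_one, true_and] at e
    · exact h.ne1 i e.2.2.symm
    · exact h.ne2 i e.2.2.symm
    · exact h.ne3 i e.symm
  -- closed under inversion
  have i0 : ∀ g ∈ S 0, g⁻¹ ∈ S 0 := by
    intro g hg
    rw [m0] at hg ⊢
    rcases hg with ⟨a, ha, k, rfl⟩ | ⟨b, hb, k, rfl⟩ | ⟨k, hk, rfl⟩
    · exact Or.inl ⟨a⁻¹, inv_ne_one.mpr ha, k⁻¹, by simp [Prod.ext_iff]⟩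
    · exact Or.inr (Or.inl ⟨b⁻¹, inv_ne_one.mpr hb, k⁻¹, by simp [Prod.ext_iff]⟩)
    · exact Or.inr (Or.inr ⟨k⁻¹, inv_ne_one.mpr hk, by simp [Prod.ext_iff]⟩)
  have i1 : ∀ g ∈ S 1, g⁻¹ ∈ S 1 := by
    intro g hg
    rw [m1] at hg ⊢
    rcases hg with ⟨a, ha, b, hb, k, rfl | rfl⟩
    · exact ⟨a⁻¹, inv_ne_one.mpr ha, b⁻¹, inv_ne_one.mpr hb, k⁻¹,
        Or.inr (by simp [Prod.ext_iff])⟩
    · exact ⟨a⁻¹, inv_ne_one.mpr ha, b⁻¹, inv_ne_one.mpr hb, k⁻¹,
        Or.inl (by simp [Prod.ext_iff])⟩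
  have i2 : ∀ g ∈ S 2, g⁻¹ ∈ S 2 := by
    intro g hg
    rw [m2] at hg ⊢
    rcases hg with ⟨i, a, ha, k, rfl⟩ | ⟨i, b, hb, k, rfl⟩ | ⟨i, rfl⟩
    · refine Or.inl ⟨i, a⁻¹, inv_ne_one.mpr ha, k⁻¹, ?_⟩
      simp only [Prod.inv_mk, map_inv, Prod.mk.injEq, true_and]
      exact inv_eq_of_mul_eq_one_left (h.sq1 i)
    · refine Or.inr (Or.inl ⟨i, b⁻¹, inv_ne_one.mpr hb, k⁻¹, ?_⟩)
      simp only [Prod.inv_mk, map_inv, Prod.mk.injEq, true_and]
      exact inv_eq_of_mul_eq_one_left (h.sq2 i)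
    · refine Or.inr (Or.inr ⟨i, ?_⟩)
      simp only [Prod.inv_mk, inv_one, Prod.mk.injEq, true_and]
      exact inv_eq_of_mul_eq_one_left (h.sq3 i)
  -- disjointness
  have w1 : ∀ g, g ∈ S 0 ∨ g ∈ S 1 → g.2.2 = 1 := by
    rintro g (hg | hg)
    · rw [m0] at hg
      rcases hg with ⟨a, ha, k, rfl⟩ | ⟨b, hb, k, rfl⟩ | ⟨k, hk, rfl⟩ <;> rfl
    · rw [m1] at hg
      rcases hg with ⟨a, ha, b, hb, k, rfl | rfl⟩ <;> rfl
  have w2 : ∀ g, g ∈ S 2 → g.2.2 ≠ 1 := by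
    intro g hg
    rw [m2] at hg
    rcases hg with ⟨i, a, ha, k, rfl⟩ | ⟨i, b, hb, k, rfl⟩ | ⟨i, rfl⟩
    · exact h.ne1 i
    · exact h.ne2 i
    · exact h.ne3 i
  have d01 : ∀ g, g ∈ S 0 → g ∉ S 1 := by
    intro g hg hg'
    rw [m0] at hg
    rw [m1] at hg'
    obtain ⟨a', ha', b', hb', k', hg'⟩ := hg'
    rcases hg with ⟨a, ha, k, rfl⟩ | ⟨b, hb, k, rfl⟩ | ⟨k, hk, rfl⟩
    · rcases hg' with e | e <;> simp only [Prod.mk.injEq, and_true] at e
      · exact hb' (h.ab_inj (a := a') (b := b') (a' := a) (b' := 1)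
          (by simpa using e.1.symm)).2
      · exact hb' (h.ba_inj (a := a') (b := b') (a' := a) (b' := 1)
          (by simpa using e.1.symm)).2
    · rcases hg' with e | e <;> simp only [Prod.mk.injEq, and_true] at e
      · exact ha' (h.ab_inj (a := a') (b := b') (a' := 1) (b' := b)
          (by simpa using e.1.symm)).1
      · exact ha' (h.ba_inj (a := a') (b := b') (a' := 1) (b' := b)
          (by simpa using e.1.symm)).1
    · rcases hg' with e | e <;> simp only [Prod.mk.injEq, and_true] at e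
      · exact ha' (h.ab_inj (a := a') (b := b') (a' := 1) (b' := 1)
          (by simpa using e.1.symm)).1
      · exact ha' (h.ba_inj (a := a') (b := b') (a' := 1) (b' := 1)
          (by simpa using e.1.symm)).1
  have hdisj : ∀ i j : Fin 3, i ≠ j → Disjoint (S i) (S j) := by
    intro i j hij
    rw [Finset.disjoint_left]
    intro g h1 h2
    rcases hj i with rfl | rfl | rfl <;> rcases hj j with rfl | rfl | rfl
    · exact hij rfl
    · exact d01 g h1 h2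
    · exact w2 g h2 (w1 g (Or.inl h1))
    · exact d01 g h2 h1
    · exact hij rfl
    · exact w2 g h2 (w1 g (Or.inr h1))
    · exact w2 g h1 (w1 g (Or.inl h2))
    · exact w2 g h1 (w1 g (Or.inr h2))
    · exact hij rfl
  -- the closed neighbourhood of the identity
  have hD : ∀ g, g ∈ (DD α β t1 t2 t3 : Finset (U × K × W)) ↔ g = 1 ∨ ∃ j, g ∈ S j := by
    intro g
    simp only [DD, mem_filter, mem_univ, true_and]
    constructor
    · obtain ⟨u, k, w⟩ := g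
      rintro (⟨hw, a, b, hu⟩ | ⟨i, hw, a, ha, hu⟩ | ⟨i, hw, b, hb, hu⟩ | ⟨i, hw, hu, hk⟩) <;>
        simp only at hw hu
      · subst hw
        by_cases ha : a = 1
        · subst ha
          have hu' : u = β b := by
            rcases hu with hu | hu <;> rw [hu] <;> simp
          subst hu'
          by_cases hb : b = 1
          · subst hb
            by_cases hk : k = 1
            · left; simp [hk, Prod.ext_iff]
            · right
              exact ⟨0, (m0 _).mpr (Or.inr (Or.inr ⟨k, hk, by simp⟩))⟩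
          · right
            exact ⟨0, (m0 _).mpr (Or.inr (Or.inl ⟨b, hb, k, rfl⟩))⟩
        · by_cases hb : b = 1
          · subst hb
            have hu' : u = α a := by
              rcases hu with hu | hu <;> rw [hu] <;> simp
            subst hu'
            right
            exact ⟨0, (m0 _).mpr (Or.inl ⟨a, ha, k, rfl⟩)⟩
          · right
            refine ⟨1, (m1 _).mpr ⟨a, ha, b, hb, k, ?_⟩⟩
            rcases hu with hu | hu
            · left; rw [hu]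
            · right; rw [hu]
      · subst hw; subst hu
        exact Or.inr ⟨2, (m2 _).mpr (Or.inl ⟨i, a, ha, k, rfl⟩)⟩
      · subst hw; subst hu
        exact Or.inr ⟨2, (m2 _).mpr (Or.inr (Or.inl ⟨i, b, hb, k, rfl⟩))⟩
      · simp only at hk
        subst hw; subst hu; subst hk
        exact Or.inr ⟨2, (m2 _).mpr (Or.inr (Or.inr ⟨i, rfl⟩))⟩
    · rintro (rfl | ⟨j, hg⟩)
      · exact (h.inD_one 1 1).mpr ⟨1, 1, Or.inl (by simp)⟩
      · rcases hj j with rfl | rfl | rfl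
        · rw [m0] at hg
          rcases hg with ⟨a, ha, k, rfl⟩ | ⟨b, hb, k, rfl⟩ | ⟨k, hk, rfl⟩
          · exact (h.inD_one _ _).mpr ⟨a, 1, Or.inl (by simp)⟩
          · exact (h.inD_one _ _).mpr ⟨1, b, Or.inl (by simp)⟩
          · exact (h.inD_one _ _).mpr ⟨1, 1, Or.inl (by simp)⟩
        · rw [m1] at hg
          rcases hg with ⟨a, ha, b, hb, k, rfl | rfl⟩
          · exact (h.inD_one _ _).mpr ⟨a, b, Or.inl rfl⟩
          · exact (h.inD_one _ _).mpr ⟨a, b, Or.inr rfl⟩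
        · rw [m2] at hg
          rcases hg with ⟨i, a, ha, k, rfl⟩ | ⟨i, b, hb, k, rfl⟩ | ⟨i, rfl⟩
          · exact (h.inD_t1 _ _ _).mpr ⟨a, ha, rfl⟩
          · exact (h.inD_t2 _ _ _).mpr ⟨b, hb, rfl⟩
          · exact (h.inD_t3 _ _ _).mpr ⟨rfl, rfl⟩
  -- cardinalities
  have c0 : #(S 0) = 2 * ((n + 2) * (n + 3)) + (n + 2) := by
    rw [hS0, card_image_of_injective _ h.e0_inj, card_univ]
    simp only [Fintype.card_sum, Fintype.card_prod, hcA, hcB, hcK, hK]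
    ring
  have c1 : #(S 1) = 2 * ((n + 2) * ((n + 2) * (n + 3))) := by
    rw [hS1, card_image_of_injective _ h.e1_inj, card_univ]
    simp only [Fintype.card_sum, Fintype.card_prod, hcA, hcB, hK]
    ring
  have c2 : #(S 2) = 2 * (n * ((n + 2) * (n + 3))) + r := by
    rw [hS2, card_image_of_injective _ h.e2_inj, card_univ]
    simp only [Fintype.card_sum, Fintype.card_prod, hcA, hcB, hK, hI1, hI2, hI3]
    ring
  -- the sums
  have s0 : 2 * ((n + 2) * (n + 3)) * ((n + 3) * ((n + 3) * (n + 3)) + n * ((n + 1) * (n + 3))) +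
      (n + 2) * ((n + 3) * ((n + 3) * (n + 3)) + ((n + 2) * ((n + 2) * (n + 3)) +
        (n * ((n + 2) * (n + 3)) + n * ((n + 2) * (n + 3))))) ≤
      ∑ s ∈ S 0, rr α β t1 t2 t3 s := by
    rw [hS0, sum_image (fun _ _ _ _ e => h.e0_inj e), Fintype.sum_sum_type, Fintype.sum_sum_type]
    have l1 : ∀ x : {a : A // a ≠ 1} × K,
        (n + 3) * ((n + 3) * (n + 3)) + n * ((n + 1) * (n + 3)) ≤
        rr α β t1 t2 t3 (e0 α β (Sum.inl x) : U × K × W) := by
      intro x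
      have := h.rA_lower x.1.1 x.1.2 x.2
      rw [hA, hB, hK, hI1] at this
      exact this
    have l2 : ∀ x : {b : B // b ≠ 1} × K,
        (n + 3) * ((n + 3) * (n + 3)) + n * ((n + 1) * (n + 3)) ≤
        rr α β t1 t2 t3 (e0 α β (Sum.inr (Sum.inl x)) : U × K × W) := by
      intro x
      have := h.swap.rA_lower x.1.1 x.1.2 x.2
      rw [hA, hB, hK, hI2, ← rr_swap] at this
      exact this
    have l3 : ∀ x : {k : K // k ≠ 1},
        (n + 3) * ((n + 3) * (n + 3)) + ((n + 2) * ((n + 2) * (n + 3)) +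
        (n * ((n + 2) * (n + 3)) + n * ((n + 2) * (n + 3)))) ≤
        rr α β t1 t2 t3 (e0 α β (Sum.inr (Sum.inr x)) : U × K × W) := by
      intro x
      have := h.rK_lower x.1
      rw [hA, hB, hK, hI1, hI2] at this
      exact this
    have k1 := Finset.card_nsmul_le_sum univ _ _ (fun x _ => l1 x)
    have k2 := Finset.card_nsmul_le_sum univ _ _ (fun x _ => l2 x)
    have k3 := Finset.card_nsmul_le_sum univ _ _ (fun x _ => l3 x)
    rw [card_univ, Fintype.card_prod, hcA, hK, smul_eq_mul] at k1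
    rw [card_univ, Fintype.card_prod, hcB, hK, smul_eq_mul] at k2
    rw [card_univ, hcK, smul_eq_mul] at k3
    linarith
  have s1 : ∑ s ∈ S 1, rr α β t1 t2 t3 s =
      2 * ((n + 2) * ((n + 2) * (n + 3))) * ((n + 3) * (n + 3) + (n + 2) * (n + 3)) := by
    rw [hS1, sum_image (fun _ _ _ _ e => h.e1_inj e), Fintype.sum_sum_type]
    have l1 : ∀ x : {a : A // a ≠ 1} × {b : B // b ≠ 1} × K,
        rr α β t1 t2 t3 (e1 α β (Sum.inl x) : U × K × W) =
        (n + 3) * (n + 3) + (n + 2) * (n + 3) := by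
      intro x
      have u1 := h.rAB_lower x.1.1 x.2.1.1 x.2.2
      have u2 := h.rAB_upper x.1.1 x.1.2 x.2.1.1 x.2.1.2 x.2.2
      rw [hA, hB, hK] at u1 u2
      exact le_antisymm u2 u1
    have l2 : ∀ x : {a : A // a ≠ 1} × {b : B // b ≠ 1} × K,
        rr α β t1 t2 t3 (e1 α β (Sum.inr x) : U × K × W) =
        (n + 3) * (n + 3) + (n + 2) * (n + 3) := by
      intro x
      have u1 := h.swap.rAB_lower x.2.1.1 x.1.1 x.2.2
      have u2 := h.swap.rAB_upper x.2.1.1 x.2.1.2 x.1.1 x.1.2 x.2.2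
      rw [hA, hB, hK, ← rr_swap] at u1 u2
      exact le_antisymm u2 u1
    rw [sum_congr rfl (fun x _ => l1 x), sum_congr rfl (fun x _ => l2 x)]
    simp only [sum_const, card_univ, Fintype.card_prod, hcA, hcB, hK, smul_eq_mul]
    ring
  have s2 : ∑ s ∈ S 2, rr α β t1 t2 t3 s ≤
      2 * (n * ((n + 2) * (n + 3))) * ((n + 2) * (n + 3) + (n + 2) * (n + 3)) + r * 2 := by
    rw [hS2, sum_image (fun _ _ _ _ e => h.e2_inj e), Fintype.sum_sum_type, Fintype.sum_sum_type]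
    have l1 : ∀ x : I1 × {a : A // a ≠ 1} × K,
        rr α β t1 t2 t3 (e2 α β t1 t2 t3 (Sum.inl x) : U × K × W) ≤
        (n + 2) * (n + 3) + (n + 2) * (n + 3) := by
      intro x
      have := h.rT1_upper x.2.1.1 x.2.2 x.1
      rw [hA, hK] at this
      exact this
    have l2 : ∀ x : I2 × {b : B // b ≠ 1} × K,
        rr α β t1 t2 t3 (e2 α β t1 t2 t3 (Sum.inr (Sum.inl x)) : U × K × W) ≤
        (n + 2) * (n + 3) + (n + 2) * (n + 3) := by
      intro x
      have := h.swap.rT1_upper x.2.1.1 x.2.2 x.1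
      rw [hB, hK, ← rr_swap] at this
      exact this
    have l3 : ∀ x : I3,
        rr α β t1 t2 t3 (e2 α β t1 t2 t3 (Sum.inr (Sum.inr x)) : U × K × W) ≤ 2 := by
      intro x
      exact h.rT3_upper x
    have k1 := Finset.sum_le_card_nsmul univ _ _ (fun x _ => l1 x)
    have k2 := Finset.sum_le_card_nsmul univ _ _ (fun x _ => l2 x)
    have k3 := Finset.sum_le_card_nsmul univ _ _ (fun x _ => l3 x)
    rw [card_univ, Fintype.card_prod, Fintype.card_prod, hI1, hcA, hK, smul_eq_mul] at k1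
    rw [card_univ, Fintype.card_prod, Fintype.card_prod, hI2, hcB, hK, smul_eq_mul] at k2
    rw [card_univ, hI3, smul_eq_mul] at k3
    linarith
  have h10 : ∑ s ∈ S 1, rr α β t1 t2 t3 s < ∑ s ∈ S 0, rr α β t1 t2 t3 s := by
    refine lt_of_lt_of_le ?_ s0
    rw [s1]
    nlinarith [Nat.zero_le n]
  have h21 : ∑ s ∈ S 2, rr α β t1 t2 t3 s < ∑ s ∈ S 1, rr α β t1 t2 t3 s := by
    refine lt_of_le_of_lt s2 ?_
    rw [s1]
    nlinarith [Nat.zero_le n]
  refine ⟨cay S ?_ ?_, ?_⟩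
  · intro j g hg
    rcases hj j with rfl | rfl | rfl
    · exact i0 g hg
    · exact i1 g hg
    · exact i2 g hg
  · intro j
    rcases hj j with rfl | rfl | rfl
    · exact n0
    · exact n1
    · exact n2
  · have hcards : (fun j => #(S j)) = ![2 * ((n + 2) * (n + 3)) + (n + 2),
        2 * ((n + 2) * ((n + 2) * (n + 3))), 2 * (n * ((n + 2) * (n + 3))) + r] := by
      funext j
      rcases hj j with rfl | rfl | rfl
      · exact c0
      · exact c1
      · exact c2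
    rw [← hcards]
    refine isFlipGraph_cay S _ _ hdisj (DD α β t1 t2 t3) hD ?_
    have hrr : ∀ s : U × K × W, #{g ∈ (DD α β t1 t2 t3 : Finset (U × K × W)) |
        g * s ∈ (DD α β t1 t2 t3 : Finset (U × K × W))} = rr α β t1 t2 t3 s := by
      intro s
      unfold rr
      congr
    intro i j hij
    simp only [hrr]
    rcases hj i with rfl | rfl | rfl <;> rcases hj j with rfl | rfl | rfl
    · exact absurd hij (by decide)
    · exact h10
    · exact h21.trans h10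
    · exact absurd hij (by decide)
    · exact absurd hij (by decide)
    · exact h21
    · exact absurd hij (by decide)
    · exact absurd hij (by decide)
    · exact absurd hij (by decide)

end Lower

end Pool.Agent.Helper70.Flip
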