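import Mathlib
import Pool.Agent.Helper70.FlipLower

set_option autoImplicit false

namespace Pool.Agent.Helper70.Flip

open Finset

section Perm

variable (F : Type) [Field F]

/-- the affine space on which the two groups act. -/
abbrev Sp : Type := F × F × F × F × F × F × F

variable {F}

/-- the first additive action. -/
def actA (a : F) : Sp F → Sp F :=
  fun v => (v.1, v.2.1, v.2.2.1 + a * v.2.1, v.2.2.2.1, v.2.2.2.2.1 + a * v.2.2.2.1,
    v.2.2.2.2.2.1, v.2.2.2.2.2.2 + a * v.2.2.2.2.2.1)

/-- the second additive action. -/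
def actB (b : F) : Sp F → Sp F :=
  fun v => (v.1, v.2.1 + b * v.1, v.2.2.1, v.2.2.2.1 + b * v.2.2.1, v.2.2.2.2.1,
    v.2.2.2.2.2.1 + b * v.2.2.2.2.1, v.2.2.2.2.2.2)

theorem actA_add (a a' : F) (v : Sp F) : actA (a + a') v = actA a (actA a' v) := by
  simp only [actA, Prod.mk.injEq, true_and]
  refine ⟨?_, ?_, ?_⟩ <;> ring

theorem actB_add (a a' : F) (v : Sp F) : actB (a + a') v = actB a (actB a' v) := by
  simp only [actB, Prod.mk.injEq, true_and, and_true]
  refine ⟨?_, ?_, ?_⟩ <;> ring

theorem actA_zero (v : Sp F) : actA 0 v = v := by simp [actA]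

theorem actB_zero (v : Sp F) : actB 0 v = v := by simp [actB]

/-- the first group of permutations. -/
def homA : Multiplicative F →* Equiv.Perm (Sp F) where
  toFun a :=
    { toFun := actA a.toAdd
      invFun := actA (-a.toAdd)
      left_inv := fun v => by rw [← actA_add, neg_add_cancel, actA_zero]
      right_inv := fun v => by rw [← actA_add, add_neg_cancel, actA_zero] }
  map_one' := by ext v : 1; exact actA_zero v
  map_mul' := by intro a a'; ext v : 1; exact actA_add _ _ v

/-- the second group of permutations. -/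
def homB : Multiplicative F →* Equiv.Perm (Sp F) where
  toFun a :=
    { toFun := actB a.toAdd
      invFun := actB (-a.toAdd)
      left_inv := fun v => by rw [← actB_add, neg_add_cancel, actB_zero]
      right_inv := fun v => by rw [← actB_add, add_neg_cancel, actB_zero] }
  map_one' := by ext v : 1; exact actB_zero v
  map_mul' := by intro a a'; ext v : 1; exact actB_add _ _ v

theorem homA_apply (a : Multiplicative F) (v : Sp F) : homA a v = actA a.toAdd v := rfl

theorem homB_apply (a : Multiplicative F) (v : Sp F) : homB a v = actB a.toAdd v := rfl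

theorem p2_hom (a b : Multiplicative F) (e : homA a = homB b) : a = 1 ∧ b = 1 := by
  constructor
  · have h1 := congrArg (fun f : Equiv.Perm (Sp F) => (f (0, 1, 0, 0, 0, 0, 0)).2.2.1) e
    simpa [homA_apply, homB_apply, actA, actB] using h1
  · have h1 := congrArg (fun f : Equiv.Perm (Sp F) => (f (1, 0, 0, 0, 0, 0, 0)).2.1) e
    simpa [homA_apply, homB_apply, actA, actB] using h1.symm

theorem p4_hom (a b a' b' : Multiplicative F) (e : homA a * homB b * homA a' * homB b' = 1) :
    a = 1 ∨ b = 1 ∨ a' = 1 ∨ b' = 1 := by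
  have h1 := congrArg (fun f : Equiv.Perm (Sp F) => (f (1, 0, 0, 0, 0, 0, 0)).2.2.2.2.1) e
  simpa [homA_apply, homB_apply, actA, actB, Equiv.Perm.mul_apply] using h1

theorem p6_hom (a b a' b' a'' b'' : Multiplicative F)
    (e : homA a * homB b * homA a' * homB b' * homA a'' * homB b'' = 1) :
    a = 1 ∨ b = 1 ∨ a' = 1 ∨ b' = 1 ∨ a'' = 1 ∨ b'' = 1 := by
  have h1 := congrArg (fun f : Equiv.Perm (Sp F) => (f (1, 0, 0, 0, 0, 0, 0)).2.2.2.2.2.2) e
  simpa [homA_apply, homB_apply, actA, actB, Equiv.Perm.mul_apply] using h1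

end Perm

section Inv

variable {I : Type} [DecidableEq I]

/-- the involutions. -/
def tt (i : I) : Multiplicative (ZMod 2 × (I → ZMod 2)) := Multiplicative.ofAdd (1, Pi.single i 1)

theorem tt_inj : Function.Injective (tt : I → _) := by
  intro i j h
  have h1 : (1, Pi.single i 1) = ((1, Pi.single j 1) : ZMod 2 × (I → ZMod 2)) := h
  have h2 := congrFun (congrArg Prod.snd h1) i
  by_contra hij
  simp only [Pi.single_eq_same, Pi.single_apply, if_neg hij] at h2
  exact absurd h2 (by decide)

theorem tt_ne_one (i : I) : tt i ≠ 1 := by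
  intro h
  have h1 : (1, Pi.single i 1) = (0 : ZMod 2 × (I → ZMod 2)) := h
  have h2 : (1 : ZMod 2) = 0 := congrArg Prod.fst h1
  exact absurd h2 (by decide)

theorem tt_sq (i : I) : tt i * tt i = 1 := by
  change ((1, Pi.single i 1) + (1, Pi.single i 1) : ZMod 2 × (I → ZMod 2)) = 0
  have hz : ∀ x : ZMod 2, x + x = 0 := by decide
  ext j
  · exact hz 1
  · exact hz _

theorem tt_mul (i j k : I) : tt i * tt j ≠ tt k := by
  intro h
  have h1 : ((1, Pi.single i 1) + (1, Pi.single j 1) : ZMod 2 × (I → ZMod 2)) =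
    (1, Pi.single k 1) := h
  have h2 : (1 : ZMod 2) + 1 = 1 := congrArg Prod.fst h1
  exact absurd h2 (by decide)

end Inv

/-- The flip sequences of the construction, one for each prime `p = n + 3`. -/
theorem flipSequence_exists (n : ℕ) (hp : (n + 3).Prime) (r : ℕ)
    (hr : r + 1 = 5 * ((n + 2) * (n + 3)) ^ 2) :
    IsFlipSequence ![2 * ((n + 2) * (n + 3)) + (n + 2), 2 * ((n + 2) * ((n + 2) * (n + 3))),
        2 * (n * ((n + 2) * (n + 3))) + r] := by
  classical
  have : Fact (n + 3).Prime := ⟨hp⟩
  have hn2 : n ≠ 1 := by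
    rintro rfl
    exact absurd hp (by norm_num)
  refine ⟨?_, ?_, ?_⟩
  · intro j
    fin_cases j
    · simp
    · simp
    · simp only [Fin.reduceFinMk, Matrix.cons_val]
      have : 0 < ((n + 2) * (n + 3)) ^ 2 := by positivity
      omega
  · rw [Fin.strictMono_iff_lt_succ]
    intro j
    fin_cases j
    · simp only [Fin.castSucc_zero, Fin.succ_zero_eq_one, Matrix.cons_val,
        Fin.zero_eta, Fin.isValue]
      have h1 : 2 * (n + 3) + 1 < 2 * ((n + 2) * (n + 3)) := by nlinarith [Nat.zero_le n]
      calc 2 * ((n + 2) * (n + 3)) + (n + 2) = (n + 2) * (2 * (n + 3) + 1) := by ring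
        _ < (n + 2) * (2 * ((n + 2) * (n + 3))) := Nat.mul_lt_mul_of_pos_left h1 (by omega)
        _ = 2 * ((n + 2) * ((n + 2) * (n + 3))) := by ring
    · have h1 : 2 * ((n + 2) * ((n + 2) * (n + 3))) < r := by
        have h2 : 2 * ((n + 2) * ((n + 2) * (n + 3))) + 1 < 5 * ((n + 2) * (n + 3)) ^ 2 := by
          have h3 : (n + 2) * ((n + 2) * (n + 3)) ≤ ((n + 2) * (n + 3)) ^ 2 := by
            rw [sq]
            exact Nat.mul_le_mul_right _ (Nat.le_mul_of_pos_right _ (by omega))
          have h4 : 1 ≤ ((n + 2) * (n + 3)) ^ 2 := Nat.one_le_pow _ _ (by positivity)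
          omega
        omega
      simp only [Fin.castSucc_one, Matrix.cons_val, Fin.mk_one, Fin.isValue,
        Fin.succ_one_eq_two]
      omega
  · have hH : Hyp (homA (F := ZMod (n + 3))) homB
        (fun i : Fin n => tt (Sum.inl i : Fin n ⊕ (Fin n ⊕ Fin r)))
        (fun i : Fin n => tt (Sum.inr (Sum.inl i) : Fin n ⊕ (Fin n ⊕ Fin r)))
        (fun i : Fin r => tt (Sum.inr (Sum.inr i) : Fin n ⊕ (Fin n ⊕ Fin r))) := by
      refine ⟨p2_hom, p4_hom, p6_hom, ?_, ?_, ?_, ?_, ?_, ?_, ?_, ?_, ?_, ?_, ?_, ?_, ?_⟩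
      · intro i j h
        simpa using tt_inj h
      · intro i j h
        simpa using tt_inj h
      · intro i j h
        simpa using tt_inj h
      · intro i j h
        simpa using tt_inj h
      · intro i j h
        simpa using tt_inj h
      · intro i j h
        simpa using tt_inj h
      · exact fun i => tt_ne_one _
      · exact fun i => tt_ne_one _
      · exact fun i => tt_ne_one _
      · exact fun i => tt_sq _
      · exact fun i => tt_sq _
      · exact fun i => tt_sq _
      · intro x y z hx hy hz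
        have key : ∀ w, w ∈ Set.range (fun i : Fin n => tt (Sum.inl i : Fin n ⊕ (Fin n ⊕ Fin r))) ∪
          Set.range (fun i : Fin n => tt (Sum.inr (Sum.inl i) : Fin n ⊕ (Fin n ⊕ Fin r))) ∪
          Set.range (fun i : Fin r => tt (Sum.inr (Sum.inr i) : Fin n ⊕ (Fin n ⊕ Fin r))) →
          ∃ i, w = tt i := by
          rintro w ((⟨i, rfl⟩ | ⟨i, rfl⟩) | ⟨i, rfl⟩) <;> exact ⟨_, rfl⟩
        obtain ⟨i, rfl⟩ := key x hx
        obtain ⟨j, rfl⟩ := key y hy
        obtain ⟨k, rfl⟩ := key z hz
        exact tt_mul i j k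
    obtain ⟨G, hG⟩ := hH.flip (K := Multiplicative (ZMod (n + 3))) n r
      (by rw [Fintype.card_multiplicative, ZMod.card])
      (by rw [Fintype.card_multiplicative, ZMod.card])
      (by rw [Fintype.card_multiplicative, ZMod.card]) (Fintype.card_fin n) (Fintype.card_fin n)
      (Fintype.card_fin r) hr
    exact ⟨_, inferInstance, inferInstance, G, hG⟩

end Pool.Agent.Helper70.Flip
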