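import Mathlib

set_option autoImplicit false

/-!
# Independent sets in the folded cube, by the inertia bound
-/

namespace Pool.Agent.Helper70.FC

open Finset

variable {N : ℕ}

/-- sign of a coordinate -/
noncomputable def rho (R : Finset (Fin N)) (i : Fin N) : ℝ := if i ∈ R then -1 else 1

/-- the character of the cube attached to `R` -/
noncomputable def chi (R S : Finset (Fin N)) : ℝ := ∏ i ∈ S, rho R i

lemma rho_mul_self (R : Finset (Fin N)) (i : Fin N) : rho R i * rho R i = 1 := by
  unfold rho; split_ifs <;> norm_num

lemma chi_ne_zero (R S : Finset (Fin N)) : chi R S ≠ 0 := by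
  unfold chi
  apply Finset.prod_ne_zero_iff.2
  intro i _
  unfold rho; split_ifs <;> norm_num

lemma chi_flip (R S : Finset (Fin N)) (i : Fin N) :
    chi R (symmDiff S {i}) = rho R i * chi R S := by
  by_cases h : i ∈ S
  · have e : symmDiff S {i} = S.erase i := by
      ext a
      simp only [mem_symmDiff, mem_singleton, mem_erase]
      by_cases ha : a = i
      · subst ha; simp [h]
      · simp [ha]
    have h2 : rho R i * chi R (S.erase i) = chi R S := by
      unfold chi; exact Finset.mul_prod_erase S (rho R) h
    rw [e, ← h2, ← mul_assoc, rho_mul_self, one_mul]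
  · have e : symmDiff S {i} = insert i S := by
      ext a
      simp only [mem_symmDiff, mem_singleton, mem_insert]
      by_cases ha : a = i
      · subst ha; simp [h]
      · simp [ha]
    rw [e]
    unfold chi
    rw [prod_insert h]

lemma prod_rho_univ (R : Finset (Fin N)) : ∏ i, rho R i = (-1) ^ R.card := by
  unfold rho
  rw [prod_ite]
  simp

lemma chi_mul_self (R S : Finset (Fin N)) : chi R S * chi R S = 1 := by
  unfold chi
  rw [← prod_mul_distrib]
  exact prod_eq_one fun i _ => rho_mul_self R i

lemma chi_compl (R S : Finset (Fin N)) : chi R Sᶜ = (-1) ^ R.card * chi R S := by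
  have h : chi R S * chi R Sᶜ = (-1) ^ R.card := by
    rw [← prod_rho_univ]
    unfold chi
    exact Finset.prod_mul_prod_compl S (rho R)
  rw [← h, mul_comm (chi R S) (chi R Sᶜ), mul_assoc, chi_mul_self, mul_one]

lemma sum_chi_mul (R R' : Finset (Fin N)) :
    ∑ S, chi R S * chi R' S = if R = R' then (2 : ℝ) ^ N else 0 := by
  have h : ∑ S, chi R S * chi R' S = ∏ i, (1 + rho R i * rho R' i) := by
    rw [Finset.prod_one_add]
    unfold chi
    simp only [← prod_mul_distrib]
    rw [Finset.powerset_univ]
  rw [h]
  split_ifs with e
  · subst e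
    simp only [rho_mul_self]
    norm_num
  · obtain ⟨i, hi⟩ : ∃ i, ¬ (i ∈ R ↔ i ∈ R') := by
      by_contra hc
      push Not at hc
      exact e (Finset.ext hc)
    apply Finset.prod_eq_zero (mem_univ i)
    unfold rho
    by_cases h1 : i ∈ R
    · have h2 : i ∉ R' := fun h2 => hi ⟨fun _ => h2, fun _ => h1⟩
      simp [h1, h2]
    · have h2 : i ∈ R' := by
        by_contra h2
        exact hi ⟨fun h => absurd h h1, fun h => absurd h h2⟩
      simp [h1, h2]

/-- eigenvalue of the folded cube -/
noncomputable def ev (R : Finset (Fin N)) : ℝ := ∑ i, rho R i + (-1) ^ R.card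

lemma ev_eq (R : Finset (Fin N)) : ev R = (N : ℝ) - 2 * R.card + (-1) ^ R.card := by
  unfold ev rho
  rw [sum_ite]
  have h1 : (univ.filter fun i => i ∈ R) = R := by ext; simp
  have h2 : (univ.filter fun i => i ∉ R) = Rᶜ := by ext; simp
  rw [h1, h2, sum_const, sum_const, card_compl, Fintype.card_fin]
  have h3 : R.card ≤ N := by simpa using R.card_le_univ
  rw [nsmul_eq_mul, nsmul_eq_mul, Nat.cast_sub h3]
  ring

/-- adjacency operator of the folded cube -/
noncomputable def adj (f : Finset (Fin N) → ℝ) (S : Finset (Fin N)) : ℝ :=
  ∑ i, f (symmDiff S {i}) + f Sᶜ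

lemma adj_chi (R S : Finset (Fin N)) : adj (chi R) S = ev R * chi R S := by
  unfold adj ev
  simp only [chi_flip, chi_compl]
  rw [← sum_mul]
  ring

/-- the inertia bound -/
lemma inertia (B P : Finset (Finset (Fin N)))
    (h1 : ∀ S ∈ B, ∀ i, symmDiff S {i} ∉ B) (h2 : ∀ S ∈ B, Sᶜ ∉ B) (s : ℝ)
    (hP : ∀ R ∈ P, 0 < s * ev R) : B.card + P.card ≤ 2 ^ N := by
  classical
  let Φ : ((B → ℝ) × (P → ℝ)) →ₗ[ℝ] (Finset (Fin N) → ℝ) :=
    { toFun := fun p S => (if h : S ∈ B then p.1 ⟨S, h⟩ else 0) - ∑ R : P, p.2 R * chi R.1 S
      map_add' := by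
        intro p q
        funext S
        simp only [Prod.fst_add, Prod.snd_add, Pi.add_apply, add_mul, sum_add_distrib]
        split_ifs <;> ring
      map_smul' := by
        intro c p
        funext S
        simp only [Prod.smul_fst, Prod.smul_snd, Pi.smul_apply, smul_eq_mul, RingHom.id_apply]
        have : ∑ R : P, c * p.2 R * chi R.1 S = c * ∑ R : P, p.2 R * chi R.1 S := by
          rw [mul_sum]; exact sum_congr rfl fun R _ => by ring
        rw [this]
        split_ifs <;> ring }
  have hinj : Function.Injective Φ := by
    rw [← LinearMap.ker_eq_bot, LinearMap.ker_eq_bot']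
    rintro ⟨a, c⟩ hac
    have hS : ∀ S, (if h : S ∈ B then a ⟨S, h⟩ else 0) = ∑ R : P, c R * chi R.1 S := by
      intro S
      have := congrFun hac S
      simpa [Φ, sub_eq_zero] using this
    set f : Finset (Fin N) → ℝ := fun S => ∑ R : P, c R * chi R.1 S with hf
    have hf0 : ∀ S, S ∉ B → f S = 0 := by
      intro S hSB
      rw [hf]; simp only
      rw [← hS S, dif_neg hSB]
    -- the form vanishes
    have hq0 : ∑ S, f S * adj f S = 0 := by
      apply sum_eq_zero
      intro S _
      by_cases hSB : S ∈ B
      · have e1 : adj f S = 0 := by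
          unfold adj
          rw [hf0 _ (h2 S hSB), add_zero]
          exact sum_eq_zero fun i _ => hf0 _ (h1 S hSB i)
        rw [e1, mul_zero]
      · rw [hf0 S hSB, zero_mul]
    -- the form in terms of the coefficients
    have hadj : ∀ S, adj f S = ∑ R : P, c R * ev R.1 * chi R.1 S := by
      intro S
      have e : adj f S = ∑ R : P, c R * adj (chi R.1) S := by
        unfold adj
        rw [hf]
        simp only [mul_add, mul_sum, sum_add_distrib]
        rw [sum_comm]
      rw [e]
      exact sum_congr rfl fun R _ => by rw [adj_chi]; ring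
    have hq : ∑ S, f S * adj f S = 2 ^ N * ∑ R : P, c R ^ 2 * ev R.1 := by
      have e : ∀ S, f S * adj f S
          = ∑ R : P, ∑ R' : P, c R * (c R' * ev R'.1) * (chi R.1 S * chi R'.1 S) := by
        intro S
        rw [hadj, hf]
        simp only
        rw [sum_mul_sum]
        exact sum_congr rfl fun R _ => sum_congr rfl fun R' _ => by ring
      simp_rw [e]
      rw [sum_comm]
      have e2 : ∀ R : P, ∑ S, ∑ R' : P, c R * (c R' * ev R'.1) * (chi R.1 S * chi R'.1 S)
          = 2 ^ N * (c R ^ 2 * ev R.1) := by
        intro R
        rw [sum_comm]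
        have e3 : ∀ R' : P, ∑ S, c R * (c R' * ev R'.1) * (chi R.1 S * chi R'.1 S)
            = if R' = R then 2 ^ N * (c R ^ 2 * ev R.1) else 0 := by
          intro R'
          rw [← mul_sum, sum_chi_mul]
          by_cases hR : R' = R
          · subst hR; simp; ring
          · have : R.1 ≠ R'.1 := fun h => hR (Subtype.ext h.symm)
            rw [if_neg this, if_neg hR, mul_zero]
        simp_rw [e3]
        simp
      simp_rw [e2]
      rw [mul_sum]
    have hc : ∀ R : P, c R = 0 := by
      have hsum : ∑ R : P, c R ^ 2 * (s * ev R.1) = 0 := by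
        have h3 : (2 : ℝ) ^ N * ∑ R : P, c R ^ 2 * ev R.1 = 0 := by rw [← hq, hq0]
        have h4 : ∑ R : P, c R ^ 2 * ev R.1 = 0 := by
          rcases mul_eq_zero.1 h3 with h | h
          · exact absurd h (by positivity)
          · exact h
        calc ∑ R : P, c R ^ 2 * (s * ev R.1) = s * ∑ R : P, c R ^ 2 * ev R.1 := by
              rw [mul_sum]; exact sum_congr rfl fun R _ => by ring
          _ = 0 := by rw [h4, mul_zero]
      rw [sum_eq_zero_iff_of_nonneg
        (fun R _ => mul_nonneg (sq_nonneg _) (hP R.1 R.2).le)] at hsum
      intro R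
      have h3 := hsum R (mem_univ _)
      rcases mul_eq_zero.1 h3 with h | h
      · exact pow_eq_zero_iff (two_ne_zero) |>.1 h
      · exact absurd h (hP R.1 R.2).ne'
    have ha : ∀ S : B, a S = 0 := by
      intro S
      have := hS S.1
      rw [dif_pos S.2] at this
      rw [show a S = a ⟨S.1, S.2⟩ from rfl, this]
      exact sum_eq_zero fun R _ => by rw [hc R, zero_mul]
    ext R
    · exact ha R
    · exact hc R
  have h3 := LinearMap.finrank_le_finrank_of_injective hinj
  simpa using h3

/-- sets of size at most `j` in `Fin (2j)` -/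
lemma card_half (j : ℕ) :
    2 * (univ.filter fun R : Finset (Fin (2 * j)) => R.card ≤ j).card
      = 4 ^ j + (2 * j).choose j := by
  have h1 : (univ.filter fun R : Finset (Fin (2 * j)) => R.card ≤ j).card
      = (univ.filter fun R : Finset (Fin (2 * j)) => j ≤ R.card).card := by
    apply Finset.card_bij (fun R _ => Rᶜ)
    · intro R hR
      simp only [mem_filter, mem_univ, true_and] at hR ⊢
      rw [card_compl, Fintype.card_fin]; omega
    · intro R _ R' _ h
      exact compl_injective h
    · intro R hR
      simp only [mem_filter, mem_univ, true_and] at hR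
      refine ⟨Rᶜ, ?_, compl_compl R⟩
      simp only [mem_filter, mem_univ, true_and]
      rw [card_compl, Fintype.card_fin]; omega
  have h2 : (univ.filter fun R : Finset (Fin (2 * j)) => R.card ≤ j).card
      + (univ.filter fun R : Finset (Fin (2 * j)) => j ≤ R.card).card
      = (univ : Finset (Finset (Fin (2 * j)))).card
        + (univ.filter fun R : Finset (Fin (2 * j)) => R.card = j).card := by
    rw [← card_union_add_card_inter]
    congr 1
    · congr 1
      ext R
      simp only [mem_union, mem_filter, mem_univ, true_and, iff_true]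
      omega
    · congr 1
      ext R
      simp only [mem_inter, mem_filter, mem_univ, true_and]
      omega
  have h3 : (univ.filter fun R : Finset (Fin (2 * j)) => R.card = j).card = (2 * j).choose j := by
    have : (univ.filter fun R : Finset (Fin (2 * j)) => R.card = j)
        = powersetCard j (univ : Finset (Fin (2 * j))) := by
      ext R; simp [mem_powersetCard]
    rw [this, card_powersetCard, card_univ, Fintype.card_fin]
  rw [h3, card_univ, Fintype.card_finset, Fintype.card_fin, pow_mul] at h2
  norm_num at h2
  omega

/-- independent sets of the folded cube of dimension `2j + 1` -/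
theorem folded (j : ℕ) (B : Finset (Finset (Fin (2 * j))))
    (h1 : ∀ S ∈ B, ∀ i, symmDiff S {i} ∉ B) (h2 : ∀ S ∈ B, Sᶜ ∉ B) :
    2 * B.card + (2 * j).choose j ≤ 4 ^ j := by
  rcases Nat.even_or_odd j with hj | hj
  · have h := inertia B (univ.filter fun R : Finset (Fin (2 * j)) => R.card ≤ j) h1 h2 1 ?_
    · have h3 := card_half j
      rw [pow_mul] at h
      norm_num at h
      omega
    · intro R hR
      simp only [mem_filter, mem_univ, true_and] at hR
      rw [one_mul, ev_eq]
      rcases hR.lt_or_eq with h | h
      · have h4 : (R.card : ℝ) + 1 ≤ j := by exact_mod_cast h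
        have h5 : (-1 : ℝ) ≤ (-1) ^ R.card := by
          rcases neg_one_pow_eq_or ℝ R.card with h | h <;> rw [h] <;> norm_num
        push_cast
        linarith
      · rw [h, hj.neg_one_pow]
        push_cast
        linarith
  · have h := inertia B (univ.filter fun R : Finset (Fin (2 * j)) => j ≤ R.card) h1 h2 (-1) ?_
    · have h3 := card_half j
      have h4 : (univ.filter fun R : Finset (Fin (2 * j)) => R.card ≤ j).card
          = (univ.filter fun R : Finset (Fin (2 * j)) => j ≤ R.card).card := by
        apply Finset.card_bij (fun R _ => Rᶜ)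
        · intro R hR
          simp only [mem_filter, mem_univ, true_and] at hR ⊢
          rw [card_compl, Fintype.card_fin]; omega
        · intro R _ R' _ h
          exact compl_injective h
        · intro R hR
          simp only [mem_filter, mem_univ, true_and] at hR
          refine ⟨Rᶜ, ?_, compl_compl R⟩
          simp only [mem_filter, mem_univ, true_and]
          rw [card_compl, Fintype.card_fin]; omega
      rw [pow_mul] at h
      norm_num at h
      omega
    · intro R hR
      simp only [mem_filter, mem_univ, true_and] at hR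
      rw [ev_eq]
      rcases hR.lt_or_eq with h | h
      · have h4 : (j : ℝ) + 1 ≤ R.card := by exact_mod_cast h
        have h5 : (-1 : ℝ) ^ R.card ≤ 1 := by
          rcases neg_one_pow_eq_or ℝ R.card with h | h <;> rw [h] <;> norm_num
        push_cast
        linarith
      · rw [← h, hj.neg_one_pow]
        push_cast
        linarith

end Pool.Agent.Helper70.FC
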